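import Pool.Agent.Q298.KZ.Bas
import Pool.Agent.W76.MO.Fix

/-! Job KZ-FX. -/

set_option autoImplicit false

namespace Pool.Agent.Q298.KZ

open Finset Filter Topology MeasureTheory
open scoped Classical
open Pool.Agent.W76.MO (hh nc cell lp Rough hh_pos nc_mul floor_le_i)
open Q236.CM (LP LP_mul LP_one LP_prime LP_nonneg LP_le LP_div)
open Pool.Agent.Q18.KZ

lemma big1 (E : KEnv) : ∃ J : ℕ, ∀ j : ℕ, J ≤ j → 1 ≤ j ∧
    2 / (nc E.δ j : ℝ) ≤ E.al * ww E.δ j / 100 := by
  obtain ⟨J, hJ⟩ := ev_pow 40 (E.δ / 2) (200 / E.al) (by have := E.hδ; linarith)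
  refine ⟨max J 1, fun j hj => ?_⟩
  have hj1 : 1 ≤ j := (le_max_right _ _).trans hj
  have hjr : (0 : ℝ) < j := by exact_mod_cast hj1
  refine ⟨hj1, ?_⟩
  have h1 := hJ j ((le_max_left _ _).trans hj)
  have hal := al_pos E
  have hnc := nc_ge E j
  have hp : 0 < (2 : ℝ) ^ ((1 / 2 + E.δ) * (j : ℝ)) := by positivity
  have h2 : 2 / (nc E.δ j : ℝ) ≤ 2 / (2 : ℝ) ^ ((1 / 2 + E.δ) * (j : ℝ)) :=
    div_le_div_of_nonneg_left (by norm_num) hp hnc
  refine h2.trans ?_
  unfold ww
  have h3 : (2 : ℝ) ^ ((1 / 2 + E.δ) * (j : ℝ)) =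
      (2 : ℝ) ^ ((1 / 2 + E.δ / 2) * (j : ℝ)) * (2 : ℝ) ^ (E.δ / 2 * (j : ℝ)) := by
    rw [← Real.rpow_add (by norm_num)]
    congr 1
    ring
  have h4 : (2 : ℝ) ^ (-(1 / 2 + E.δ / 2) * (j : ℝ)) = ((2 : ℝ) ^ ((1 / 2 + E.δ / 2) * (j : ℝ)))⁻¹ := by
    rw [← Real.rpow_neg (by norm_num)]
    congr 1
    ring
  rw [h3, h4]
  set A := (2 : ℝ) ^ ((1 / 2 + E.δ / 2) * (j : ℝ)) with hA
  set B := (2 : ℝ) ^ (E.δ / 2 * (j : ℝ)) with hB
  have hA0 : 0 < A := by positivity
  have hB0 : 0 < B := by positivity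
  have h5 : 200 * (j : ℝ) ^ 40 ≤ E.al * B := by
    have := mul_le_mul_of_nonneg_left h1 hal.le
    calc 200 * (j : ℝ) ^ 40 = E.al * (200 / E.al * (j : ℝ) ^ 40) := by field_simp
      _ ≤ _ := this
  have hj40 : 0 < (j : ℝ) ^ 40 := by positivity
  rw [div_le_iff₀ (by positivity)]
  have e1 : E.al * (A⁻¹ / (j : ℝ) ^ 40) / 100 * (A * B) = (E.al * B) / (100 * (j : ℝ) ^ 40) := by
    field_simp
  rw [e1, le_div_iff₀ (by positivity)]
  linarith

lemma big2 (E : KEnv) : ∃ J : ℕ, ∀ i : ℕ, J ≤ i →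
    2 * (2 : ℝ) ^ (-(1 / 2 + 1 / 2000) * (i : ℝ)) ≤ E.al * ww E.δ i / 50 := by
  obtain ⟨J, hJ⟩ := ev_pow 40 (1 / 4000) (100 / E.al) (by norm_num)
  refine ⟨max J 1, fun i hj => ?_⟩
  have hj1 : 1 ≤ i := (le_max_right _ _).trans hj
  have hjr : (0 : ℝ) < i := by exact_mod_cast hj1
  have h1 := hJ i ((le_max_left _ _).trans hj)
  have hal := al_pos E
  have hδ := E.hδ'
  unfold ww
  have h3 : (2 : ℝ) ^ (-(1 / 2 + 1 / 2000) * (i : ℝ)) ≤
      (2 : ℝ) ^ (-(1 / 2 + E.δ / 2) * (i : ℝ)) * ((2 : ℝ) ^ (1 / 4000 * (i : ℝ)))⁻¹ := by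
    rw [← Real.rpow_neg (by norm_num), ← Real.rpow_add (by norm_num)]
    apply Real.rpow_le_rpow_of_exponent_le one_le_two
    have : E.δ ≤ 1 / 4000 := hδ.trans (by norm_num)
    nlinarith
  set A := (2 : ℝ) ^ (-(1 / 2 + E.δ / 2) * (i : ℝ)) with hA
  set B := (2 : ℝ) ^ (1 / 4000 * (i : ℝ)) with hB
  have hA0 : 0 < A := by positivity
  have hB0 : 0 < B := by positivity
  have h5 : 100 * (i : ℝ) ^ 40 ≤ E.al * B := by
    have := mul_le_mul_of_nonneg_left h1 hal.le
    calc 100 * (i : ℝ) ^ 40 = E.al * (100 / E.al * (i : ℝ) ^ 40) := by field_simp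
      _ ≤ _ := this
  have hj40 : 0 < (i : ℝ) ^ 40 := by positivity
  refine (mul_le_mul_of_nonneg_left h3 (by norm_num : (0 : ℝ) ≤ 2)).trans ?_
  have e1 : 2 * (A * B⁻¹) = A * (2 / B) := by ring
  have e2 : E.al * (A / (i : ℝ) ^ 40) / 50 = A * (E.al / (50 * (i : ℝ) ^ 40)) := by
    field_simp
  rw [e1, e2]
  apply mul_le_mul_of_nonneg_left _ hA0.le
  rw [div_le_div_iff₀ hB0 (by positivity)]
  linarith

lemma ff_zero (E : KEnv) (V : ℕ → Bool) (j n : ℕ) : E.ff V j 0 n = LP (aV V) n := by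
  unfold KEnv.ff
  congr 1
  funext p
  unfold KEnv.fp
  simp

lemma fr_lin (E : KEnv) (V : ℕ → Bool) (j I : ℕ) (z z' : ℕ × ℕ → ℝ) (ε : ℝ) (hε : ε ≠ 0) (q : ℕ) :
    E.fr V j I z q - E.fr V j I z' q = ε * E.fr V j I (fun x => (z x - z' x) / ε) q := by
  unfold KEnv.fr
  rw [← Finset.sum_sub_distrib, Finset.mul_sum]
  refine Finset.sum_congr rfl fun i _ => ?_
  split_ifs
  · simp
  · rw [← Finset.sum_sub_distrib, Finset.mul_sum]
    refine Finset.sum_congr rfl fun k _ => ?_
    field_simp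

lemma aV_nonneg (V : ℕ → Bool) (p : ℕ) : 0 ≤ aV V p := by
  unfold aV
  split_ifs <;> positivity

theorem t_FX (hDE : S_DE) (hNK : S_NK) (hTS : S_TS) (hDEC : S_DEC) (hLB : S_LB) (hLM : S_LM) :
    S_FX := by
  intro E
  obtain ⟨J1, hJ1⟩ := big1 E
  obtain ⟨J2, hJ2⟩ := big2 E
  refine KZAll.mono (KZAll.and (KZAll.and (KZAll.and (KZAll.and (KZAll.and (KZAll.and
    (hDE E 1 one_pos) (hNK E)) (hTS E)) (hDEC E)) (hLB E)) (hLM E)) (KZAll.large E (max J1 J2))) ?_
  rintro η j V ⟨⟨⟨⟨⟨⟨⟨-, hde⟩, hnk⟩, hts⟩, hdec⟩, hlb⟩, hlm⟩, hJ⟩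
  obtain ⟨hj1, hnc2⟩ := hJ1 j ((le_max_left _ _).trans hJ)
  have hncp : (0 : ℝ) < nc E.δ j := by exact_mod_cast nc_pos E j
  have hal := al_pos E
  -- the data of the fixed point lemma
  set F : (ℕ × ℕ → ℝ) → ℕ × ℕ → ℝ := fun z x =>
    if j ≤ x.1 ∧ x.2 < nc E.δ x.1 then
      ∑ n ∈ cell E.δ x.1 x.2, E.ff V j z n +
        (if x.1 = j then (1 + ∑ n ∈ Icc 2 (2 ^ j), E.ff V j z n) / nc E.δ j else 0)
    else z x with hF
  set W : ℕ × ℕ → ℝ := fun x => if j ≤ x.1 ∧ x.2 < nc E.δ x.1 then E.WC x.1 x.2 else 1 with hW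
  have hsolve := Pool.Agent.W76.MO.solve F W ?_ ?_ ?_
  · obtain ⟨z, hz, hz0⟩ := hsolve
    refine ⟨z, hz, fun i k hi hk => ?_⟩
    have := hz0 (i, k)
    simp only [hF] at this
    rw [if_pos ⟨hi, hk⟩] at this
    exact this
  · -- positivity
    intro x
    simp only [hW]
    split_ifs with h
    · exact WC_pos E (hj1.trans h.1) _
    · exact one_pos
  · -- the value at zero
    rintro ⟨i, k⟩
    simp only [hF, hW]
    by_cases h : j ≤ i ∧ k < nc E.δ i
    · rw [if_pos h, if_pos h]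
      obtain ⟨hi, hk⟩ := h
      simp only [ff_zero]
      have h1 := (hnk i k hi hk).2
      have h2 : 0 ≤ ∑ n ∈ cell E.δ i k, LP (aV V) n :=
        Finset.sum_nonneg fun n _ => LP_nonneg _ (aV_nonneg V) n
      have hWC := WC_pos E (hj1.trans hi) k
      have h3 : |if i = j then (1 + ∑ n ∈ Icc 2 (2 ^ j), LP (aV V) n) / (nc E.δ j : ℝ) else 0| ≤
          E.WC i k / 100 := by
        split_ifs with hij
        · subst hij
          have h4 : 0 ≤ ∑ n ∈ Icc 2 (2 ^ i), LP (aV V) n :=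
            Finset.sum_nonneg fun n _ => LP_nonneg _ (aV_nonneg V) n
          have h5 : ∑ n ∈ Icc 2 (2 ^ i), LP (aV V) n ≤ 1 := by
            refine le_trans (Finset.sum_le_sum fun n hn => ?_) hde
            rw [mem_Icc] at hn
            have h6 := (hlb 0 0 0 (by simp) (by simp) (by simp) n (by omega)).1
            rw [ff_zero] at h6
            exact (le_abs_self _).trans h6
          rw [abs_of_nonneg (by positivity)]
          calc (1 + ∑ n ∈ Icc 2 (2 ^ i), LP (aV V) n) / (nc E.δ i : ℝ) ≤ 2 / (nc E.δ i : ℝ) := by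
                apply div_le_div_of_nonneg_right _ hncp.le
                linarith
            _ ≤ E.al * ww E.δ i / 100 := hnc2
            _ ≤ E.WC i k / 100 := by
                apply div_le_div_of_nonneg_right (WC_ge E k) (by norm_num)
        · rw [abs_zero]
          positivity
      refine (abs_add_le _ _).trans ?_
      rw [abs_of_nonneg h2]
      linarith
    · rw [if_neg h, if_neg h]
      simp
  · -- the Lipschitz estimate
    intro z z' ε hz hz' hzz
    have hε0 : 0 ≤ ε := (abs_nonneg _).trans (hzz (0, 0))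
    rintro ⟨i, k⟩
    simp only [hF, hW]
    by_cases h : j ≤ i ∧ k < nc E.δ i
    · rw [if_pos h, if_pos h, if_pos h]
      obtain ⟨hi, hk⟩ := h
      rcases hε0.lt_or_eq with hε | hε
      · have hi1 : 1 ≤ i := hj1.trans hi
        have hWC := WC_pos E hi1 k
        have hWCge := WC_ge E (i := i) k
        have hend := cell_end E hk
        -- near part
        have hnear := hlm z z' ε hz hz' hzz i k hi hk
        have hnear2 : ε * (∑ n ∈ cell E.δ i k, (E.AN V j i n - LP (aV V) n) / 2 - E.WC i k) ≤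
            ε * (E.WC i k / 16) := by
          apply mul_le_mul_of_nonneg_left _ hε.le
          have := (hnk i k hi hk).1
          linarith
        -- far part
        set S : ℕ → Finset ℕ := fun n => n.primeFactors.filter (fun q : ℕ => (2 : ℝ) ^ (0.7 * (i : ℝ)) < q)
          with hS
        have hdz : ∀ (y : ℕ × ℕ → ℝ), ∑ n ∈ cell E.δ i k, E.ff V j y n =
            ∑ n ∈ cell E.δ i k, LP (E.fn V j i y) n +
              ∑ n ∈ cell E.δ i k, ∑ q ∈ S n, E.fr V j i y q * E.ff V j y (n / q) := by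
          intro y
          rw [← Finset.sum_add_distrib]
          refine Finset.sum_congr rfl fun n hn => ?_
          obtain ⟨h1, h2⟩ := mem_cell E hk hn
          exact hdec i n y hi h1 h2
        set θ : ℕ × ℕ → ℝ := fun x => (z x - z' x) / ε with hθ
        have hθ1 : ∀ x, |θ x| ≤ 1 := by
          intro x
          simp only [hθ]
          rw [abs_div, abs_of_pos hε, div_le_one hε]
          exact hzz x
        set φ : ℕ → ℝ := fun m => (E.ff V j z m - E.ff V j z' m) / ε with hφ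
        have hφ1 : ∀ m : ℕ, m ≠ 0 → |φ m| ≤ E.AA V j m := by
          intro m hm
          simp only [hφ]
          rw [abs_div, abs_of_pos hε, div_le_iff₀ hε, mul_comm]
          exact (hlb z z' ε hz hz' hzz m hm).2.1
        have hle : 2 ^ i + k * hh E.δ i ≤ 2 ^ i + (k + 1) * hh E.δ i :=
          Nat.add_le_add_left (Nat.mul_le_mul_right _ (Nat.le_succ k)) _
        have ht1 := hts i (2 ^ i + k * hh E.δ i) (2 ^ i + (k + 1) * hh E.δ i) (E.ff V j z) θ hi
          (by omega) hle hend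
          (fun m hm => (hlb z z' ε hz hz' hzz m hm).1) hθ1
        have ht2 := hts i (2 ^ i + k * hh E.δ i) (2 ^ i + (k + 1) * hh E.δ i) φ z' hi
          (by omega) hle hend
          hφ1 hz'
        rw [← cell_eq] at ht1 ht2
        have ht1' : |∑ n ∈ cell E.δ i k, ∑ q ∈ S n, E.fr V j i θ q * E.ff V j z (n / q)| ≤
          (2 : ℝ) ^ (-(1 / 2 + 1 / 2000) * (i : ℝ)) := ht1
        have ht2' : |∑ n ∈ cell E.δ i k, ∑ q ∈ S n, E.fr V j i z' q * φ (n / q)| ≤
          (2 : ℝ) ^ (-(1 / 2 + 1 / 2000) * (i : ℝ)) := ht2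
        have hfar : ∑ n ∈ cell E.δ i k, ∑ q ∈ S n, E.fr V j i z q * E.ff V j z (n / q) -
            ∑ n ∈ cell E.δ i k, ∑ q ∈ S n, E.fr V j i z' q * E.ff V j z' (n / q) =
            ε * (∑ n ∈ cell E.δ i k, ∑ q ∈ S n, E.fr V j i θ q * E.ff V j z (n / q)) +
            ε * (∑ n ∈ cell E.δ i k, ∑ q ∈ S n, E.fr V j i z' q * φ (n / q)) := by
          rw [← Finset.sum_sub_distrib, Finset.mul_sum, Finset.mul_sum, ← Finset.sum_add_distrib]
          refine Finset.sum_congr rfl fun n _ => ?_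
          rw [← Finset.sum_sub_distrib, Finset.mul_sum, Finset.mul_sum, ← Finset.sum_add_distrib]
          refine Finset.sum_congr rfl fun q _ => ?_
          have e1 := fr_lin E V j i z z' ε hε.ne' q
          have e2 : ε * φ (n / q) = E.ff V j z (n / q) - E.ff V j z' (n / q) := by
            simp only [hφ]
            field_simp
          have e3 : ε * (E.fr V j i z' q * φ (n / q)) = E.fr V j i z' q * (ε * φ (n / q)) := by ring
          rw [e3, e2, ← mul_assoc, ← e1]
          ring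
        have hfar2 : |∑ n ∈ cell E.δ i k, ∑ q ∈ S n, E.fr V j i z q * E.ff V j z (n / q) -
            ∑ n ∈ cell E.δ i k, ∑ q ∈ S n, E.fr V j i z' q * E.ff V j z' (n / q)| ≤
            ε * (E.WC i k / 50) := by
          rw [hfar]
          refine (abs_add_le _ _).trans ?_
          rw [abs_mul, abs_mul, abs_of_pos hε, ← mul_add]
          apply mul_le_mul_of_nonneg_left _ hε.le
          have h9 := hJ2 i ((le_max_right _ _).trans (hJ.trans hi))
          have h10 : E.al * ww E.δ i / 50 ≤ E.WC i k / 50 := by linarith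
          linarith
        -- the first scale
        have hfirst : |(if i = j then (1 + ∑ n ∈ Icc 2 (2 ^ j), E.ff V j z n) / (nc E.δ j : ℝ) else 0) -
            (if i = j then (1 + ∑ n ∈ Icc 2 (2 ^ j), E.ff V j z' n) / (nc E.δ j : ℝ) else 0)| ≤
            ε * (E.WC i k / 100) := by
          split_ifs with hij
          · subst hij
            rw [← sub_div, abs_div, abs_of_pos hncp, add_sub_add_left_eq_sub, ← Finset.sum_sub_distrib]
            have h5 : |∑ n ∈ Icc 2 (2 ^ i), (E.ff V i z n - E.ff V i z' n)| ≤ ε := by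
              refine (Finset.abs_sum_le_sum_abs _ _).trans ?_
              calc ∑ n ∈ Icc 2 (2 ^ i), |E.ff V i z n - E.ff V i z' n|
                  ≤ ∑ n ∈ Icc 2 (2 ^ i), ε * E.AA V i n := by
                    refine Finset.sum_le_sum fun n hn => ?_
                    rw [mem_Icc] at hn
                    exact (hlb z z' ε hz hz' hzz n (by omega)).2.1
                _ = ε * ∑ n ∈ Icc 2 (2 ^ i), E.AA V i n := by rw [Finset.mul_sum]
                _ ≤ ε * 1 := mul_le_mul_of_nonneg_left hde hε.le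
                _ = ε := mul_one _
            calc |∑ n ∈ Icc 2 (2 ^ i), (E.ff V i z n - E.ff V i z' n)| / (nc E.δ i : ℝ)
                ≤ ε / (nc E.δ i : ℝ) := div_le_div_of_nonneg_right h5 hncp.le
              _ = ε * (1 / (nc E.δ i : ℝ)) := by ring
              _ ≤ ε * (E.WC i k / 100) := by
                  apply mul_le_mul_of_nonneg_left _ hε.le
                  have h6 : 1 / (nc E.δ i : ℝ) ≤ 2 / (nc E.δ i : ℝ) :=
                    div_le_div_of_nonneg_right (by norm_num) hncp.le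
                  linarith
          · simp only [sub_zero, abs_zero]
            positivity
        rw [Finset.sum_sub_distrib] at hnear
        have hd1 := hdz z
        have hd2 := hdz z'
        have htot : ∑ n ∈ cell E.δ i k, E.ff V j z n +
              (if i = j then (1 + ∑ n ∈ Icc 2 (2 ^ j), E.ff V j z n) / (nc E.δ j : ℝ) else 0) -
            (∑ n ∈ cell E.δ i k, E.ff V j z' n +
              (if i = j then (1 + ∑ n ∈ Icc 2 (2 ^ j), E.ff V j z' n) / (nc E.δ j : ℝ) else 0)) -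
            E.WC i k * (z (i, k) - z' (i, k)) =
            (∑ n ∈ cell E.δ i k, LP (E.fn V j i z) n - ∑ n ∈ cell E.δ i k, LP (E.fn V j i z') n -
              E.WC i k * (z (i, k) - z' (i, k))) +
            (∑ n ∈ cell E.δ i k, ∑ q ∈ S n, E.fr V j i z q * E.ff V j z (n / q) -
              ∑ n ∈ cell E.δ i k, ∑ q ∈ S n, E.fr V j i z' q * E.ff V j z' (n / q)) +
            ((if i = j then (1 + ∑ n ∈ Icc 2 (2 ^ j), E.ff V j z n) / (nc E.δ j : ℝ) else 0) -
            (if i = j then (1 + ∑ n ∈ Icc 2 (2 ^ j), E.ff V j z' n) / (nc E.δ j : ℝ) else 0)) := by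
          rw [hd1, hd2]
          ring
        rw [htot]
        refine (abs_add_le _ _).trans ?_
        refine (add_le_add (abs_add_le _ _) le_rfl).trans ?_
        have hfin : ε * (E.WC i k / 16) + ε * (E.WC i k / 50) + ε * (E.WC i k / 100) ≤
            ε * (E.WC i k / 4) := by
          have : 0 < ε * E.WC i k := by positivity
          linarith
        linarith
      · have hzeq : z = z' := by
          funext x
          have := hzz x
          rw [← hε] at this
          exact sub_eq_zero.mp (abs_nonpos_iff.mp this)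
        subst hzeq
        rw [← hε]
        simp
    · rw [if_neg h, if_neg h, if_neg h, one_mul, sub_self, abs_zero]
      positivity

end Pool.Agent.Q298.KZ
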