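import Pool.Agent.Q298.KZ.Bas

/-! Job KZ-LM. -/

set_option autoImplicit false

namespace Pool.Agent.Q298.KZ

open Finset Filter Topology MeasureTheory
open scoped Classical
open Pool.Agent.W76.MO (hh nc cell lp Rough hh_pos nc_mul floor_le_i)
open Q236.CM (LP LP_mul LP_one LP_prime LP_nonneg LP_le LP_div LP_pow)
open Pool.Agent.Q18.KZ

namespace LM

/-- isolating one summand -/
lemma isolate {α : Type} (S : Finset α) (T B : α → ℝ) (a : α) (ha : a ∈ S) (w d : ℝ)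
    (h1 : ∀ b ∈ S, |T b| ≤ B b) (h2 : |T a - d| ≤ B a - w) :
    |∑ b ∈ S, T b - d| ≤ ∑ b ∈ S, B b - w := by
  classical
  rw [← Finset.add_sum_erase S T ha, ← Finset.add_sum_erase S B ha]
  have h3 : |∑ b ∈ S.erase a, T b| ≤ ∑ b ∈ S.erase a, B b :=
    (Finset.abs_sum_le_sum_abs _ _).trans
      (Finset.sum_le_sum fun b hb => h1 b (Finset.mem_of_mem_erase hb))
  have h4 : T a + ∑ b ∈ S.erase a, T b - d = (T a - d) + ∑ b ∈ S.erase a, T b := by ring
  rw [h4]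
  refine (abs_add_le _ _).trans ?_
  linarith

lemma LP_congr {f g : ℕ → ℝ} {n : ℕ} (h : ∀ p : ℕ, p.Prime → p ∣ n → f p = g p) :
    LP f n = LP g n := by
  unfold LP
  congr 1
  apply List.map_congr_left
  intro p hp
  have := Nat.prime_of_mem_primeFactorsList hp
  exact h p this (Nat.dvd_of_mem_primeFactorsList hp)

lemma LP_aV {V : ℕ → Bool} {m : ℕ} (hm : m ≠ 0) (h : Vn V m) :
    LP (aV V) m = (m : ℝ) ^ (-(1 / 2 : ℝ) - dd) := by
  rw [← LP_pow _ hm]
  apply LP_congr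
  intro p hp hpm
  unfold aV
  rw [if_pos (h p (Nat.mem_primeFactors.mpr ⟨hp, hpm, hm⟩))]

lemma aV_nonneg (V : ℕ → Bool) (p : ℕ) : 0 ≤ aV V p := by
  unfold aV
  split_ifs <;> positivity

variable (E : KEnv) (V : ℕ → Bool)

lemma Om1_nonneg (i k : ℕ) : 0 ≤ E.Om1 V i k := by
  unfold KEnv.Om1
  exact Finset.sum_nonneg fun v _ => by positivity

lemma Om2_nonneg (i k : ℕ) : 0 ≤ E.Om2 V i k := by
  unfold KEnv.Om2
  exact Finset.sum_nonneg fun v _ => by positivity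

lemma aw_nonneg (i : ℕ) : 0 ≤ E.al * ww E.δ i := mul_nonneg (al_pos E).le (ww_nonneg _ _)

lemma G1_le (i k q : ℕ) : |E.G1 V i k q| ≤ E.G1a V i k q := by
  unfold KEnv.G1 KEnv.G1a
  rw [abs_mul, abs_of_nonneg (aw_nonneg E i)]
  apply mul_le_mul_of_nonneg_left _ (aw_nonneg E i)
  refine (Finset.abs_sum_le_sum_abs _ _).trans (Finset.sum_le_sum fun v _ => ?_)
  have hO := Om1_nonneg E V i k
  have hc : 0 ≤ (v : ℝ) ^ (dd - d1) / E.Om1 V i k := by positivity
  rw [abs_mul, abs_of_nonneg hc]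
  apply mul_le_mul_of_nonneg_left _ hc
  set a : ℝ := if q ∈ E.Lq i k v then 1 / ((E.Lq i k v).card : ℝ) else 0 with ha
  set b : ℝ := if q ∈ E.Lq i (E.pi i k) v then 1 / ((E.Lq i (E.pi i k) v).card : ℝ) else 0 with hb
  have ha0 : 0 ≤ a := by rw [ha]; split_ifs <;> positivity
  have hb0 : 0 ≤ b := by rw [hb]; split_ifs <;> positivity
  rw [abs_le]
  constructor <;> linarith

lemma G1a_nonneg (i k q : ℕ) : 0 ≤ E.G1a V i k q := (abs_nonneg _).trans (G1_le E V i k q)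

lemma G2_nonneg (i k q : ℕ) : 0 ≤ E.G2 V i k q := by
  unfold KEnv.G2
  apply mul_nonneg (aw_nonneg E i)
  refine Finset.sum_nonneg fun n _ => ?_
  have := Om2_nonneg E V i k
  positivity

lemma gu_nonneg (j p : ℕ) : 0 ≤ E.gu j p := by
  unfold KEnv.gu
  split_ifs
  · have := ww_nonneg E.δ (KEnv.sc p)
    positivity
  · exact le_rfl

/-- the main summand of the first kind -/
noncomputable def w1 (i k v : ℕ) : ℝ :=
  E.al * ww E.δ i * ((v : ℝ) ^ (dd - d1) / E.Om1 V i k * (1 / ((E.Lq i k v).card : ℝ)))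

lemma G1_sub {i k v q : ℕ} (hv : v ∈ E.Us i k) (hV : V v = true) (hq : q ∈ E.Lq i k v) :
    |E.G1 V i k q - w1 E V i k v| ≤ E.G1a V i k q - w1 E V i k v := by
  unfold KEnv.G1 KEnv.G1a w1
  rw [← mul_sub, ← mul_sub, abs_mul, abs_of_nonneg (aw_nonneg E i)]
  apply mul_le_mul_of_nonneg_left _ (aw_nonneg E i)
  have hO := Om1_nonneg E V i k
  refine isolate _ _ _ v (mem_filter.mpr ⟨hv, hV⟩) _ _ ?_ ?_
  · intro v' _
    have hc : 0 ≤ (v' : ℝ) ^ (dd - d1) / E.Om1 V i k := by positivity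
    rw [abs_mul, abs_of_nonneg hc]
    apply mul_le_mul_of_nonneg_left _ hc
    set a : ℝ := if q ∈ E.Lq i k v' then 1 / ((E.Lq i k v').card : ℝ) else 0 with ha
    set b : ℝ := if q ∈ E.Lq i (E.pi i k) v' then 1 / ((E.Lq i (E.pi i k) v').card : ℝ) else 0 with hb
    have ha0 : 0 ≤ a := by rw [ha]; split_ifs <;> positivity
    have hb0 : 0 ≤ b := by rw [hb]; split_ifs <;> positivity
    rw [abs_le]
    constructor <;> linarith
  · have hc : 0 ≤ (v : ℝ) ^ (dd - d1) / E.Om1 V i k := by positivity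
    rw [if_pos hq, ← mul_sub, ← mul_sub, abs_mul, abs_of_nonneg hc]
    apply mul_le_mul_of_nonneg_left _ hc
    set b : ℝ := if q ∈ E.Lq i (E.pi i k) v then 1 / ((E.Lq i (E.pi i k) v).card : ℝ) else 0 with hb
    have hb0 : 0 ≤ b := by rw [hb]; split_ifs <;> positivity
    have e1 : 1 / ((E.Lq i k v).card : ℝ) - b - 1 / ((E.Lq i k v).card : ℝ) = -b := by ring
    rw [e1, abs_neg, abs_of_nonneg hb0]
    linarith

/-- the main summand of the second kind -/
noncomputable def w2 (i k n : ℕ) : ℝ :=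
  E.al * ww E.δ i * (((n / lp n : ℕ) : ℝ) ^ (1 + dd - d1) / E.Om2 V i k)

lemma G2_sub {i k n : ℕ} (hn : n ∈ H2D E.δ i k) (hV : Vn V (n / lp n)) :
    w2 E V i k n ≤ E.G2 V i k (lp n) := by
  unfold KEnv.G2 w2
  apply mul_le_mul_of_nonneg_left _ (aw_nonneg E i)
  have hO := Om2_nonneg E V i k
  exact Finset.single_le_sum (f := fun n' : ℕ => ((n' / lp n : ℕ) : ℝ) ^ (1 + dd - d1) / E.Om2 V i k)
    (fun n' _ => by positivity) (mem_filter.mpr ⟨hn, rfl, hV⟩)

/-! ### differences at a prime -/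

/-- one scale of the hosts -/
noncomputable def Ti (I q : ℕ) (D : ℕ × ℕ → ℝ) (i : ℕ) : ℝ :=
  (if (i : ℝ) ≤ 1.166 * I then ∑ k ∈ E.B1 i, D (i, k) * E.G1 V i k q else 0) +
    ∑ k ∈ E.B2 i, D (i, k) * E.G2 V i k q

/-- one scale of the majorant -/
noncomputable def Bi (I q : ℕ) (i : ℕ) : ℝ :=
  (if (i : ℝ) ≤ 1.166 * I then E.H1 V i q else 0) + E.H2 V i q

lemma ghn_eq (j I q : ℕ) : E.ghn V j I q = ∑ i ∈ KEnv.hs j q, Bi E V I q i := rfl

lemma fn_sub (j I q : ℕ) (z z' : ℕ × ℕ → ℝ) :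
    E.fn V j I z q - E.fn V j I z' q = (z (KEnv.sc q, E.kx q) - z' (KEnv.sc q, E.kx q)) * E.gu j q +
      ∑ i ∈ KEnv.hs j q, Ti E V I q (fun x => z x - z' x) i := by
  unfold KEnv.fn Ti
  have h : ∀ i ∈ KEnv.hs j q, ((if (i : ℝ) ≤ 1.166 * I then ∑ k ∈ E.B1 i, (z (i, k) - z' (i, k)) * E.G1 V i k q
        else 0) + ∑ k ∈ E.B2 i, (z (i, k) - z' (i, k)) * E.G2 V i k q) =
      ((if (i : ℝ) ≤ 1.166 * I then ∑ k ∈ E.B1 i, z (i, k) * E.G1 V i k q else 0) +
        ∑ k ∈ E.B2 i, z (i, k) * E.G2 V i k q) -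
      ((if (i : ℝ) ≤ 1.166 * I then ∑ k ∈ E.B1 i, z' (i, k) * E.G1 V i k q else 0) +
        ∑ k ∈ E.B2 i, z' (i, k) * E.G2 V i k q) := by
    intro i _
    simp only [sub_mul, Finset.sum_sub_distrib]
    split_ifs
    · ring
    · ring
  rw [Finset.sum_congr rfl h, Finset.sum_sub_distrib]
  ring

variable {E V}

lemma Ti_le (I q i : ℕ) (D : ℕ × ℕ → ℝ) (ε : ℝ) (hD : ∀ x, |D x| ≤ ε) :
    |Ti E V I q D i| ≤ ε * Bi E V I q i := by
  unfold Ti Bi KEnv.H1 KEnv.H2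
  have hε : 0 ≤ ε := (abs_nonneg _).trans (hD (0, 0))
  rw [mul_add]
  refine (abs_add_le _ _).trans (add_le_add ?_ ?_)
  · split_ifs
    · rw [Finset.mul_sum]
      refine (Finset.abs_sum_le_sum_abs _ _).trans (Finset.sum_le_sum fun k _ => ?_)
      rw [abs_mul]
      exact mul_le_mul (hD _) (G1_le E V i k q) (abs_nonneg _) hε
    · simp
  · rw [Finset.mul_sum]
    refine (Finset.abs_sum_le_sum_abs _ _).trans (Finset.sum_le_sum fun k _ => ?_)
    rw [abs_mul, abs_of_nonneg (G2_nonneg E V i k q)]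
    exact mul_le_mul_of_nonneg_right (hD _) (G2_nonneg E V i k q)

lemma Ti_first {I q i k : ℕ} (D : ℕ × ℕ → ℝ) (ε w : ℝ) (hD : ∀ x, |D x| ≤ ε)
    (hI : (i : ℝ) ≤ 1.166 * I) (hk : k ∈ E.B1 i) (hw : |E.G1 V i k q - w| ≤ E.G1a V i k q - w) :
    |Ti E V I q D i - w * D (i, k)| ≤ ε * Bi E V I q i - ε * w := by
  unfold Ti Bi KEnv.H1 KEnv.H2
  have hε : 0 ≤ ε := (abs_nonneg _).trans (hD (0, 0))
  rw [if_pos hI, if_pos hI]
  have h1 : |∑ k ∈ E.B1 i, D (i, k) * E.G1 V i k q - w * D (i, k)| ≤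
      ∑ k ∈ E.B1 i, ε * E.G1a V i k q - ε * w := by
    refine isolate _ _ _ k hk _ _ (fun k' _ => ?_) ?_
    · rw [abs_mul]
      exact mul_le_mul (hD _) (G1_le E V i k' q) (abs_nonneg _) hε
    · have e1 : D (i, k) * E.G1 V i k q - w * D (i, k) = D (i, k) * (E.G1 V i k q - w) := by ring
      rw [e1, abs_mul, ← mul_sub]
      exact mul_le_mul (hD _) hw (abs_nonneg _) hε
  have h2 : |∑ k ∈ E.B2 i, D (i, k) * E.G2 V i k q| ≤ ∑ k ∈ E.B2 i, ε * E.G2 V i k q := by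
    refine (Finset.abs_sum_le_sum_abs _ _).trans (Finset.sum_le_sum fun k _ => ?_)
    rw [abs_mul, abs_of_nonneg (G2_nonneg E V i k q)]
    exact mul_le_mul_of_nonneg_right (hD _) (G2_nonneg E V i k q)
  rw [← Finset.mul_sum] at h1 h2
  have e2 : ∑ k ∈ E.B1 i, D (i, k) * E.G1 V i k q + ∑ k ∈ E.B2 i, D (i, k) * E.G2 V i k q - w * D (i, k) =
      (∑ k ∈ E.B1 i, D (i, k) * E.G1 V i k q - w * D (i, k)) + ∑ k ∈ E.B2 i, D (i, k) * E.G2 V i k q := by
    ring
  rw [e2]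
  refine (abs_add_le _ _).trans ?_
  linarith

lemma Ti_second {I q i k : ℕ} (D : ℕ × ℕ → ℝ) (ε w : ℝ) (hD : ∀ x, |D x| ≤ ε)
    (hk : k ∈ E.B2 i) (hw : w ≤ E.G2 V i k q) :
    |Ti E V I q D i - w * D (i, k)| ≤ ε * Bi E V I q i - ε * w := by
  unfold Ti Bi KEnv.H1 KEnv.H2
  have hε : 0 ≤ ε := (abs_nonneg _).trans (hD (0, 0))
  have h1 : |∑ k ∈ E.B2 i, D (i, k) * E.G2 V i k q - w * D (i, k)| ≤
      ∑ k ∈ E.B2 i, ε * E.G2 V i k q - ε * w := by
    refine isolate _ _ _ k hk _ _ (fun k' _ => ?_) ?_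
    · rw [abs_mul, abs_of_nonneg (G2_nonneg E V i k' q)]
      exact mul_le_mul_of_nonneg_right (hD _) (G2_nonneg E V i k' q)
    · have e1 : D (i, k) * E.G2 V i k q - w * D (i, k) = D (i, k) * (E.G2 V i k q - w) := by ring
      rw [e1, abs_mul, ← mul_sub, abs_of_nonneg (sub_nonneg.mpr hw)]
      exact mul_le_mul_of_nonneg_right (hD _) (sub_nonneg.mpr hw)
  have h2 : |(if (i : ℝ) ≤ 1.166 * I then ∑ k ∈ E.B1 i, D (i, k) * E.G1 V i k q else 0)| ≤
      ε * (if (i : ℝ) ≤ 1.166 * I then ∑ k ∈ E.B1 i, E.G1a V i k q else 0) := by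
    split_ifs
    · rw [Finset.mul_sum]
      refine (Finset.abs_sum_le_sum_abs _ _).trans (Finset.sum_le_sum fun k _ => ?_)
      rw [abs_mul]
      exact mul_le_mul (hD _) (G1_le E V i k q) (abs_nonneg _) hε
    · simp
  rw [← Finset.mul_sum] at h1
  have e2 : (if (i : ℝ) ≤ 1.166 * I then ∑ k ∈ E.B1 i, D (i, k) * E.G1 V i k q else 0) +
        ∑ k ∈ E.B2 i, D (i, k) * E.G2 V i k q - w * D (i, k) =
      (if (i : ℝ) ≤ 1.166 * I then ∑ k ∈ E.B1 i, D (i, k) * E.G1 V i k q else 0) +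
      (∑ k ∈ E.B2 i, D (i, k) * E.G2 V i k q - w * D (i, k)) := by
    ring
  rw [e2]
  refine (abs_add_le _ _).trans ?_
  linarith

/-- the difference at a prime, main summand isolated -/
lemma fn_main {j I q i k : ℕ} (z z' : ℕ × ℕ → ℝ) (ε w : ℝ) (hD : ∀ x, |z x - z' x| ≤ ε)
    (hi : i ∈ KEnv.hs j q)
    (h : |Ti E V I q (fun x => z x - z' x) i - w * (z (i, k) - z' (i, k))| ≤ ε * Bi E V I q i - ε * w) :
    |E.fn V j I z q - E.fn V j I z' q - w * (z (i, k) - z' (i, k))| ≤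
      ε * (E.gu j q + E.ghn V j I q - w) := by
  rw [fn_sub, ghn_eq]
  have h1 : |∑ i ∈ KEnv.hs j q, Ti E V I q (fun x => z x - z' x) i - w * (z (i, k) - z' (i, k))| ≤
      ∑ i ∈ KEnv.hs j q, ε * Bi E V I q i - ε * w :=
    isolate _ _ _ i hi _ _ (fun i' _ => Ti_le I q i' _ ε hD) h
  rw [← Finset.mul_sum] at h1
  have h2 : |(z (KEnv.sc q, E.kx q) - z' (KEnv.sc q, E.kx q)) * E.gu j q| ≤ ε * E.gu j q := by
    rw [abs_mul, abs_of_nonneg (gu_nonneg E j q)]
    exact mul_le_mul_of_nonneg_right (hD _) (gu_nonneg E j q)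
  rw [add_sub_assoc]
  refine (abs_add_le _ _).trans ?_
  linarith

/-- the difference at a prime -/
lemma fn_diff (j I q : ℕ) (z z' : ℕ × ℕ → ℝ) (ε : ℝ) (hD : ∀ x, |z x - z' x| ≤ ε) :
    |E.fn V j I z q - E.fn V j I z' q -
      (z (KEnv.sc q, E.kx q) - z' (KEnv.sc q, E.kx q)) * E.gu j q| ≤ ε * E.ghn V j I q := by
  rw [fn_sub, ghn_eq, add_sub_cancel_left, Finset.mul_sum]
  exact (Finset.abs_sum_le_sum_abs _ _).trans (Finset.sum_le_sum fun i' _ => Ti_le I q i' _ ε hD)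

/-- the perturbation at a prime -/
lemma fn_abs (j I q : ℕ) (z : ℕ × ℕ → ℝ) (hz : ∀ x, |z x| ≤ 1) :
    |E.fn V j I z q - aV V q| ≤ E.gu j q + E.ghn V j I q := by
  have h0 : E.fn V j I 0 q = aV V q := by
    unfold KEnv.fn
    simp
  have h := fn_diff (E := E) (V := V) j I q z 0 1 (by simpa using hz)
  rw [h0, one_mul] at h
  have h2 : |(z (KEnv.sc q, E.kx q) - (0 : ℕ × ℕ → ℝ) (KEnv.sc q, E.kx q)) * E.gu j q| ≤ E.gu j q := by
    rw [abs_mul, abs_of_nonneg (gu_nonneg E j q)]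
    have := hz (KEnv.sc q, E.kx q)
    have h3 : |z (KEnv.sc q, E.kx q) - (0 : ℕ × ℕ → ℝ) (KEnv.sc q, E.kx q)| ≤ 1 := by simpa using this
    calc _ ≤ 1 * E.gu j q := mul_le_mul_of_nonneg_right h3 (gu_nonneg E j q)
      _ = _ := one_mul _
  have e : E.fn V j I z q - aV V q = (E.fn V j I z q - aV V q -
      (z (KEnv.sc q, E.kx q) - (0 : ℕ × ℕ → ℝ) (KEnv.sc q, E.kx q)) * E.gu j q) +
      (z (KEnv.sc q, E.kx q) - (0 : ℕ × ℕ → ℝ) (KEnv.sc q, E.kx q)) * E.gu j q := by ring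
  rw [e]
  refine (abs_add_le _ _).trans ?_
  linarith

lemma fn_lip (j I q : ℕ) (z z' : ℕ × ℕ → ℝ) (ε : ℝ) (hD : ∀ x, |z x - z' x| ≤ ε) :
    |E.fn V j I z q - E.fn V j I z' q| ≤ ε * (E.gu j q + E.ghn V j I q) := by
  have h := fn_diff (E := E) (V := V) j I q z z' ε hD
  have h2 : |(z (KEnv.sc q, E.kx q) - z' (KEnv.sc q, E.kx q)) * E.gu j q| ≤ ε * E.gu j q := by
    rw [abs_mul, abs_of_nonneg (gu_nonneg E j q)]
    exact mul_le_mul_of_nonneg_right (hD _) (gu_nonneg E j q)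
  have e : E.fn V j I z q - E.fn V j I z' q = (E.fn V j I z q - E.fn V j I z' q -
      (z (KEnv.sc q, E.kx q) - z' (KEnv.sc q, E.kx q)) * E.gu j q) +
      (z (KEnv.sc q, E.kx q) - z' (KEnv.sc q, E.kx q)) * E.gu j q := by ring
  rw [e]
  refine (abs_add_le _ _).trans ?_
  linarith

lemma LP_aV_nonneg (n : ℕ) : 0 ≤ LP (aV V) n := LP_nonneg _ (aV_nonneg V) n

lemma fn_zero (j I : ℕ) : E.fn V j I 0 = aV V := by
  funext p
  unfold KEnv.fn
  simp

/-- numbers `m q` -/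
lemma pair {j I m q : ℕ} (hm : m ≠ 0) (hq : q.Prime) (z z' : ℕ × ℕ → ℝ) (ε w d : ℝ)
    (hz : ∀ x, |z x| ≤ 1) (hD : ∀ x, |z x - z' x| ≤ ε)
    (h1 : |LP (E.fn V j I z) m - LP (E.fn V j I z') m| ≤ ε * ((E.AN V j I m - LP (aV V) m) / 2))
    (h2 : |LP (E.fn V j I z') m - LP (aV V) m| ≤ (E.AN V j I m - LP (aV V) m) / 2)
    (h3 : |E.fn V j I z q - E.fn V j I z' q - w * d| ≤ ε * (E.gu j q + E.ghn V j I q - w)) :
    |LP (E.fn V j I z) (m * q) - LP (E.fn V j I z') (m * q) - LP (aV V) m * w * d| ≤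
      ε * ((E.AN V j I (m * q) - LP (aV V) (m * q)) / 2 - LP (aV V) m * w) := by
  have hε : 0 ≤ ε := (abs_nonneg _).trans (hD (0, 0))
  unfold KEnv.AN at h1 h2 ⊢
  rw [LP_mul _ hm hq.ne_zero, LP_mul _ hm hq.ne_zero, LP_mul _ hm hq.ne_zero, LP_mul _ hm hq.ne_zero,
    LP_prime _ hq, LP_prime _ hq, LP_prime _ hq, LP_prime _ hq]
  have h4 := fn_abs (E := E) (V := V) j I q z hz
  have h5 := fn_lip (E := E) (V := V) j I q z z' ε hD
  have hcq := aV_nonneg V q
  have hcm := LP_aV_nonneg (V := V) m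
  set A := LP (fun p => aV V p + 2 * (E.gu j p + E.ghn V j I p)) m with hA
  set c := LP (aV V) m with hc
  set M := LP (E.fn V j I z) m with hM
  set M' := LP (E.fn V j I z') m with hM'
  set f := E.fn V j I z q with hf
  set f' := E.fn V j I z' q with hf'
  set g := E.gu j q + E.ghn V j I q with hg
  have hfa : |f| ≤ aV V q + g := by
    have e : f = (f - aV V q) + aV V q := by ring
    rw [e]
    refine (abs_add_le _ _).trans ?_
    rw [abs_of_nonneg hcq]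
    linarith
  have e : M * f - M' * f' - c * w * d = (M - M') * f + (M' - c) * (f - f') + c * (f - f' - w * d) := by
    ring
  rw [e]
  have t1 : |(M - M') * f| ≤ ε * ((A - c) / 2) * (aV V q + g) := by
    rw [abs_mul]
    exact mul_le_mul h1 hfa (abs_nonneg _) ((abs_nonneg _).trans h1)
  have t2 : |(M' - c) * (f - f')| ≤ (A - c) / 2 * (ε * g) := by
    rw [abs_mul]
    exact mul_le_mul h2 h5 (abs_nonneg _) ((abs_nonneg _).trans h2)
  have t3 : |c * (f - f' - w * d)| ≤ c * (ε * (g - w)) := by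
    rw [abs_mul, abs_of_nonneg hcm]
    exact mul_le_mul_of_nonneg_left h3 hcm
  refine (abs_add_le _ _).trans ?_
  refine (add_le_add (abs_add_le _ _) le_rfl).trans ?_
  have e2 : ε * ((A * (aV V q + 2 * g) - c * aV V q) / 2 - c * w) =
      ε * ((A - c) / 2) * (aV V q + g) + (A - c) / 2 * (ε * g) + c * (ε * (g - w)) := by ring
  rw [e2]
  linarith

/-- summation -/
lemma sum_up (C : Finset ℕ) (Δ B W : ℕ → ℝ) (ε d WC : ℝ) (hW : ∑ n ∈ C, W n = WC)
    (h : ∀ n ∈ C, |Δ n - W n * d| ≤ ε * (B n - W n)) :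
    |∑ n ∈ C, Δ n - WC * d| ≤ ε * (∑ n ∈ C, B n - WC) := by
  rw [← hW, Finset.sum_mul, ← Finset.sum_sub_distrib, ← Finset.sum_sub_distrib, Finset.mul_sum]
  exact (Finset.abs_sum_le_sum_abs _ _).trans (Finset.sum_le_sum h)

lemma mem_hs {j i q : ℕ} (hi : j ≤ i) (hq : (2 : ℝ) ^ (0.25 * (i : ℝ)) ≤ q) :
    i ∈ KEnv.hs j q := by
  unfold KEnv.hs
  rw [mem_filter, mem_range]
  refine ⟨?_, hi⟩
  have h1 : (q : ℝ) < 2 ^ (Nat.log 2 q + 1) := by exact_mod_cast Nat.lt_pow_succ_log_self one_lt_two q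
  have h2 : (2 : ℝ) ^ (0.25 * (i : ℝ)) < (2 : ℝ) ^ ((Nat.log 2 q + 1 : ℕ) : ℝ) := by
    rw [Real.rpow_natCast]
    exact hq.trans_lt h1
  rw [Real.rpow_lt_rpow_left_iff one_lt_two] at h2
  have h3 : (i : ℝ) < 4 * (Nat.log 2 q : ℝ) + 4 := by
    push_cast at h2
    linarith
  exact_mod_cast h3

lemma sc_cell {i k n : ℕ} (hk : k < nc E.δ i) (hn : n ∈ cell E.δ i k) : KEnv.sc n = i :=
  (Pool.Agent.W76.MO.cell_loc E.δ E.hδ i k n hk hn).2.2

lemma kx_cell {i k n : ℕ} (hk : k < nc E.δ i) (hn : n ∈ cell E.δ i k) : E.kx n = k := by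
  have h := sc_cell hk hn
  unfold KEnv.kx
  rw [h]
  rw [cell_eq, mem_Ioc] at hn
  have hpos := hh_pos E.δ i
  apply Nat.div_eq_of_lt_le
  · omega
  · omega

/-! ### the three cases -/

section cases

variable {j i k : ℕ} (hji : j ≤ i) (hi₁ : E.i₁ ≤ i) (hk : k < nc E.δ i)
  (z z' : ℕ × ℕ → ℝ) (ε : ℝ) (hz : ∀ x, |z x| ≤ 1) (hz' : ∀ x, |z' x| ≤ 1)
  (hD : ∀ x, |z x - z' x| ≤ ε)
  (hLB1 : ∀ n : ℕ, n ≠ 0 → |LP (E.fn V j i z) n - LP (E.fn V j i z') n| ≤
    ε * ((E.AN V j i n - LP (aV V) n) / 2))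
  (hLB2 : ∀ n : ℕ, n ≠ 0 → |LP (E.fn V j i z') n - LP (aV V) n| ≤ (E.AN V j i n - LP (aV V) n) / 2)

include hji hi₁ hk hD hLB1 in
lemma case_good (hg : k ∉ E.B1 i ∪ E.B2 i) :
    |∑ n ∈ cell E.δ i k, (LP (E.fn V j i z) n - LP (E.fn V j i z') n) -
        ww E.δ i * (z (i, k) - z' (i, k))| ≤
      ε * (∑ n ∈ cell E.δ i k, (E.AN V j i n - LP (aV V) n) / 2 - ww E.δ i) := by
  have hi0 : (0 : ℝ) < i := by
    have := E.hi₁
    exact_mod_cast (by omega : 0 < i)
  have hcard : (0 : ℝ) < (((cell E.δ i k).filter Nat.Prime).card : ℝ) := by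
    refine lt_of_lt_of_le ?_ (E.good i hi₁ k hk hg)
    have := E.hcU
    have : (0 : ℝ) < hh E.δ i := by exact_mod_cast hh_pos E.δ i
    positivity
  refine sum_up _ _ _ (fun n => if n.Prime then ww E.δ i / (((cell E.δ i k).filter Nat.Prime).card : ℝ)
    else 0) ε _ _ ?_ ?_
  · rw [← Finset.sum_filter, Finset.sum_const, nsmul_eq_mul]
    field_simp
  · intro n hn
    obtain ⟨hn1, hn2⟩ := mem_cell E hk hn
    have hn0 : n ≠ 0 := by omega
    by_cases hp : n.Prime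
    · simp only [if_pos hp]
      have hgu : E.gu j n = ww E.δ i / (((cell E.δ i k).filter Nat.Prime).card : ℝ) := by
        unfold KEnv.gu
        have h1 : 2 ^ j < n := lt_of_le_of_lt (Nat.pow_le_pow_right (by norm_num) hji) hn1
        rw [sc_cell hk hn, kx_cell hk hn, if_pos ⟨hp, h1, hg⟩]
      have h1 := fn_diff (E := E) (V := V) j i n z z' ε hD
      rw [sc_cell hk hn, kx_cell hk hn, hgu] at h1
      unfold KEnv.AN
      rw [LP_prime _ hp, LP_prime _ hp, LP_prime _ hp, LP_prime _ hp, hgu]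
      have e1 : ww E.δ i / (((cell E.δ i k).filter Nat.Prime).card : ℝ) * (z (i, k) - z' (i, k)) =
        (z (i, k) - z' (i, k)) * (ww E.δ i / (((cell E.δ i k).filter Nat.Prime).card : ℝ)) := mul_comm _ _
      rw [e1]
      refine h1.trans (le_of_eq ?_)
      ring
    · simp only [if_neg hp, zero_mul, sub_zero]
      exact hLB1 n hn0

include hji hi₁ hk hz hD hLB1 hLB2 in
lemma case_B1 (hFF : S_FF) (hO : E.cu / 2 ≤ E.Om1 V i k) (hkB : k ∈ E.B1 i) :
    |∑ n ∈ cell E.δ i k, (LP (E.fn V j i z) n - LP (E.fn V j i z') n) -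
        E.al * ww E.δ i * (z (i, k) - z' (i, k))| ≤
      ε * (∑ n ∈ cell E.δ i k, (E.AN V j i n - LP (aV V) n) / 2 - E.al * ww E.δ i) := by
  have hi0 : (0 : ℝ) < i := by
    have := E.hi₁
    exact_mod_cast (by omega : 0 < i)
  have hOpos : 0 < E.Om1 V i k := lt_of_lt_of_le (by have := E.hcu; positivity) hO
  -- the facts on the pairs
  have hfam : ∀ v ∈ (E.Us i k).filter (fun v => V v = true), ∀ q ∈ E.Lq i k v,
      v.Prime ∧ q.Prime ∧ v < q ∧ (2 : ℝ) ^ (0.615 * (i : ℝ)) ≤ q := by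
    intro v hv q hq
    have hvVR : v ∈ VR i := E.us_sub i hi₁ k hkB (mem_filter.mp hv).1
    have hq2 := hq
    unfold KEnv.Lq LqD at hq2
    rw [mem_filter] at hq2
    have hmem : (v, q) ∈ E.Fam1 i := by
      unfold KEnv.Fam1
      rw [mem_filter, mem_product]
      refine ⟨⟨hvVR, hq2.1⟩, hq2.2.1, hq2.2.2.1, ?_⟩
      unfold KEnv.Act1 ActD
      rw [mem_biUnion]
      exact ⟨k, mem_union_left _ hkB, hq2.2.2.2⟩
    obtain ⟨h1, h2, _, h4, h5, _⟩ := (hFF E i hi₁).1 (v, q) hmem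
    exact ⟨h1, h2, h4, h5⟩
  have hcard : ∀ v ∈ (E.Us i k).filter (fun v => V v = true), v.Prime ∧ 0 < (E.Lq i k v).card := by
    intro v hv
    have hvVR : v ∈ VR i := E.us_sub i hi₁ k hkB (mem_filter.mp hv).1
    have hvp : v.Prime := by
      unfold VR at hvVR
      exact (mem_filter.mp hvVR).2.1
    refine ⟨hvp, ?_⟩
    have h1 := (E.us_q i hi₁ k hkB v (mem_filter.mp hv).1).1
    have h2 : (0 : ℝ) < hh E.δ i := by exact_mod_cast hh_pos E.δ i
    have h3 : (0 : ℝ) < v := by exact_mod_cast hvp.pos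
    have h4 := E.hcq
    have h5 : 0 < E.cq * hh E.δ i / (v * i) := by positivity
    exact_mod_cast h5.trans_le h1
  refine sum_up _ _ _ (fun n => ∑ v ∈ (E.Us i k).filter (fun v => V v = true),
    if v ∣ n ∧ n / v ∈ E.Lq i k v then LP (aV V) v * w1 E V i k v else 0) ε _ _ ?_ ?_
  · rw [Finset.sum_comm]
    have h1 : ∀ v ∈ (E.Us i k).filter (fun v => V v = true),
        ∑ n ∈ cell E.δ i k, (if v ∣ n ∧ n / v ∈ E.Lq i k v then LP (aV V) v * w1 E V i k v else 0) =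
          E.al * ww E.δ i / E.Om1 V i k * (v : ℝ) ^ (-(1 / 2 : ℝ) - d1) := by
      intro v hv
      obtain ⟨hvp, hc0⟩ := hcard v hv
      have hVv : V v = true := (mem_filter.mp hv).2
      rw [← Finset.sum_filter, Finset.sum_const, nsmul_eq_mul]
      have h2 : ((cell E.δ i k).filter (fun n => v ∣ n ∧ n / v ∈ E.Lq i k v)) =
          (E.Lq i k v).image (fun q => v * q) := by
        ext n
        rw [mem_filter, mem_image]
        constructor
        · rintro ⟨_, h3, h4⟩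
          exact ⟨n / v, h4, Nat.mul_div_cancel' h3⟩
        · rintro ⟨q, hq, rfl⟩
          have hq2 := hq
          unfold KEnv.Lq LqD at hq2
          rw [mem_filter] at hq2
          refine ⟨hq2.2.2.2, dvd_mul_right v q, ?_⟩
          rw [Nat.mul_div_cancel_left q hvp.pos]
          exact hq
      rw [h2, Finset.card_image_of_injective _ (fun a b hab => Nat.eq_of_mul_eq_mul_left hvp.pos hab)]
      rw [LP_aV hvp.ne_zero (by
        intro p hp
        have := (Nat.dvd_prime hvp).mp (Nat.dvd_of_mem_primeFactors hp)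
        rcases this with h | h
        · exact absurd h (Nat.prime_of_mem_primeFactors hp).one_lt.ne'
        · rw [h]; exact hVv)]
      unfold w1
      have hc : (0 : ℝ) < ((E.Lq i k v).card : ℝ) := by exact_mod_cast hc0
      have hv0 : (0 : ℝ) < v := by exact_mod_cast hvp.pos
      have e1 : (v : ℝ) ^ (-(1 / 2 : ℝ) - d1) = (v : ℝ) ^ (-(1 / 2 : ℝ) - dd) * (v : ℝ) ^ (dd - d1) := by
        rw [← Real.rpow_add hv0]
        congr 1
        ring
      rw [e1]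
      field_simp
    rw [Finset.sum_congr rfl h1, ← Finset.mul_sum]
    have h3 : ∑ v ∈ (E.Us i k).filter (fun v => V v = true), (v : ℝ) ^ (-(1 / 2 : ℝ) - d1) = E.Om1 V i k := rfl
    rw [h3]
    field_simp
  · intro n hn
    obtain ⟨hn1, hn2⟩ := mem_cell E hk hn
    have hn0 : n ≠ 0 := by omega
    by_cases hex : ∃ v ∈ (E.Us i k).filter (fun v => V v = true), v ∣ n ∧ n / v ∈ E.Lq i k v
    · obtain ⟨v, hv, hvn, hq⟩ := hex
      obtain ⟨hvp, hqp, hvq, hqge⟩ := hfam v hv _ hq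
      set q := n / v with hqd
      have hnvq : n = v * q := (Nat.mul_div_cancel' hvn).symm
      have hW : (∑ v ∈ (E.Us i k).filter (fun v => V v = true),
          if v ∣ n ∧ n / v ∈ E.Lq i k v then LP (aV V) v * w1 E V i k v else 0) =
          LP (aV V) v * w1 E V i k v := by
        rw [Finset.sum_eq_single v, if_pos ⟨hvn, hq⟩]
        · intro v' hv' hne
          rw [if_neg]
          rintro ⟨h1, h2⟩
          obtain ⟨hvp', hqp', hvq', _⟩ := hfam v' hv' _ h2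
          have hn' : n = v' * (n / v') := (Nat.mul_div_cancel' h1).symm
          have h3 : v' ∣ v * q := by rw [← hnvq]; exact h1
          rcases (hvp'.dvd_mul).mp h3 with h4 | h4
          · exact hne ((Nat.prime_dvd_prime_iff_eq hvp' hvp).mp h4)
          · have h5 : v' = q := (Nat.prime_dvd_prime_iff_eq hvp' hqp).mp h4
            have h6 : n / v' = v := by
              rw [hnvq, h5]
              exact Nat.mul_div_cancel _ hqp.pos
            rw [h6, h5] at hvq'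
            omega
        · intro h
          exact absurd hv h
      simp only [hW]
      have h3 := fn_main (E := E) (V := V) (I := i) (k := k) z z' ε (w1 E V i k v) hD
        (mem_hs (q := q) hji (le_trans (Real.rpow_le_rpow_of_exponent_le one_le_two (by
          nlinarith)) hqge))
        (Ti_first (fun x => z x - z' x) ε (w1 E V i k v) hD (by nlinarith) hkB
          (G1_sub E V (mem_filter.mp hv).1 (mem_filter.mp hv).2 hq))
      have h4 := pair (E := E) (V := V) (j := j) (I := i) hvp.ne_zero hqp z z' ε (w1 E V i k v)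
        (z (i, k) - z' (i, k)) hz hD (hLB1 v hvp.ne_zero) (hLB2 v hvp.ne_zero) h3
      rw [← hnvq] at h4
      exact h4
    · have hW : (∑ v ∈ (E.Us i k).filter (fun v => V v = true),
          if v ∣ n ∧ n / v ∈ E.Lq i k v then LP (aV V) v * w1 E V i k v else 0) = 0 := by
        refine Finset.sum_eq_zero fun v hv => ?_
        rw [if_neg]
        exact fun h => hex ⟨v, hv, h⟩
      simp only [hW, zero_mul, sub_zero]
      exact hLB1 n hn0

omit z z' ε in
lemma lp_prime {n : ℕ} (hn : 1 < n) : (lp n).Prime ∧ lp n ∣ n := by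
  have hne : n.primeFactors.Nonempty := Nat.nonempty_primeFactors.mpr hn
  obtain ⟨p, hp, h⟩ := Finset.exists_mem_eq_sup n.primeFactors hne id
  have : lp n = p := h
  rw [this]
  exact ⟨Nat.prime_of_mem_primeFactors hp, Nat.dvd_of_mem_primeFactors hp⟩

include hji hi₁ hk hz hD hLB1 hLB2 in
lemma case_B2 (hFF : S_FF) (hO : E.cH / 2 * hh E.δ i / i ≤ E.Om2 V i k) (hkB : k ∈ E.B2 i) :
    |∑ n ∈ cell E.δ i k, (LP (E.fn V j i z) n - LP (E.fn V j i z') n) -
        E.al * ww E.δ i * (z (i, k) - z' (i, k))| ≤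
      ε * (∑ n ∈ cell E.δ i k, (E.AN V j i n - LP (aV V) n) / 2 - E.al * ww E.δ i) := by
  have hi0 : (0 : ℝ) < i := by
    have := E.hi₁
    exact_mod_cast (by omega : 0 < i)
  have hOpos : 0 < E.Om2 V i k := by
    refine lt_of_lt_of_le ?_ hO
    have := E.hcH
    have : (0 : ℝ) < hh E.δ i := by exact_mod_cast hh_pos E.δ i
    positivity
  have hsub : ∀ n ∈ H2D E.δ i k, n ∈ cell E.δ i k := fun n hn => by
    unfold H2D at hn
    exact (mem_filter.mp hn).1
  have hfam : ∀ n ∈ H2D E.δ i k, (lp n).Prime ∧ n = n / lp n * lp n ∧ n / lp n ≠ 0 ∧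
      (2 : ℝ) ^ (0.25 * (i : ℝ)) ≤ (lp n : ℝ) := by
    intro n hn
    obtain ⟨hn1, hn2⟩ := mem_cell E hk (hsub n hn)
    have h1n : 1 < n := by
      have : 1 ≤ 2 ^ i := Nat.one_le_two_pow
      omega
    obtain ⟨h1, h2⟩ := lp_prime h1n
    have h3 : n / lp n * lp n = n := Nat.div_mul_cancel h2
    have hmem : (n / lp n, lp n) ∈ E.Fam2 i := by
      unfold KEnv.Fam2
      rw [mem_filter, mem_product, mem_range, mem_range]
      refine ⟨⟨?_, ?_⟩, h1, ?_, k, hkB, ?_⟩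
      · have := Nat.div_le_self n (lp n)
        simp only
        omega
      · have := Nat.le_of_dvd (by omega) h2
        simp only
        omega
      · simp only [h3]
      · simp only [h3]
        exact hn
    obtain ⟨_, _, _, _, _, _, _, h8, _⟩ := (hFF E i hi₁).2 _ hmem
    refine ⟨h1, h3.symm, ?_, h8⟩
    intro h0
    rw [h0, zero_mul] at h3
    omega
  refine sum_up _ _ _ (fun n => if n ∈ H2D E.δ i k ∧ Vn V (n / lp n) then
    LP (aV V) (n / lp n) * w2 E V i k n else 0) ε _ _ ?_ ?_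
  · rw [← Finset.sum_filter]
    have h1 : (cell E.δ i k).filter (fun n => n ∈ H2D E.δ i k ∧ Vn V (n / lp n)) =
        (H2D E.δ i k).filter (fun n => Vn V (n / lp n)) := by
      ext n
      rw [mem_filter, mem_filter]
      constructor
      · rintro ⟨_, h2, h3⟩
        exact ⟨h2, h3⟩
      · rintro ⟨h2, h3⟩
        exact ⟨hsub n h2, h2, h3⟩
    rw [h1]
    have h2 : ∀ n ∈ (H2D E.δ i k).filter (fun n => Vn V (n / lp n)),
        LP (aV V) (n / lp n) * w2 E V i k n =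
          E.al * ww E.δ i / E.Om2 V i k * ((n / lp n : ℕ) : ℝ) ^ (1 / 2 - d1) := by
      intro n hn
      rw [mem_filter] at hn
      obtain ⟨h3, h4, h5, h6⟩ := hfam n hn.1
      rw [LP_aV h5 hn.2]
      unfold w2
      have hm0 : (0 : ℝ) < ((n / lp n : ℕ) : ℝ) := by exact_mod_cast Nat.pos_of_ne_zero h5
      have e1 : ((n / lp n : ℕ) : ℝ) ^ (1 / 2 - d1) =
          ((n / lp n : ℕ) : ℝ) ^ (-(1 / 2 : ℝ) - dd) * ((n / lp n : ℕ) : ℝ) ^ (1 + dd - d1) := by
        rw [← Real.rpow_add hm0]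
        congr 1
        ring
      rw [e1]
      ring
    rw [Finset.sum_congr rfl h2, ← Finset.mul_sum]
    have h3 : ∑ n ∈ (H2D E.δ i k).filter (fun n => Vn V (n / lp n)),
      ((n / lp n : ℕ) : ℝ) ^ (1 / 2 - d1) = E.Om2 V i k := rfl
    rw [h3]
    field_simp
  · intro n hn
    obtain ⟨hn1, hn2⟩ := mem_cell E hk hn
    have hn0 : n ≠ 0 := by omega
    by_cases hex : n ∈ H2D E.δ i k ∧ Vn V (n / lp n)
    · simp only [if_pos hex]
      obtain ⟨h3, h4, h5, h6⟩ := hfam n hex.1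
      have h7 := fn_main (E := E) (V := V) (I := i) (k := k) z z' ε (w2 E V i k n) hD
        (mem_hs (q := lp n) hji h6)
        (Ti_second (fun x => z x - z' x) ε (w2 E V i k n) hD hkB (G2_sub E V hex.1 hex.2))
      have h8 := pair (E := E) (V := V) (j := j) (I := i) h5 h3 z z' ε (w2 E V i k n)
        (z (i, k) - z' (i, k)) hz hD (hLB1 _ h5) (hLB2 _ h5) h7
      rw [← h4] at h8
      exact h8
    · simp only [if_neg hex, zero_mul, sub_zero]
      exact hLB1 n hn0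

end cases

end LM

/-- `S_LB` (from DG) is used for the other numbers of the cell -/
theorem t_LM (hFF : S_FF) (hLB : S_LB) : S_LM := by
  intro E
  refine KZAll.mono (KZAll.and (KZAll.and (hLB E) (KZAll.ev E)) (KZAll.large E E.i₁)) ?_
  rintro η j V ⟨⟨hlb, hev⟩, hJ⟩
  intro z z' ε hz hz' hD i k hji hk
  have hi₁ : E.i₁ ≤ i := hJ.trans hji
  have h1 : ∀ n : ℕ, n ≠ 0 → |LP (E.fn V j i z) n - LP (E.fn V j i z') n| ≤
      ε * ((E.AN V j i n - LP (aV V) n) / 2) := fun n hn =>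
    ((hlb z z' ε hz hz' hD n hn).2.2 i).2.2
  have h2 : ∀ n : ℕ, n ≠ 0 → |LP (E.fn V j i z') n - LP (aV V) n| ≤
      (E.AN V j i n - LP (aV V) n) / 2 := by
    intro n hn
    have h3 := ((hlb z' 0 1 hz' (by simp) (by simpa using hz') n hn).2.2 i).2.2
    rw [LM.fn_zero, one_mul] at h3
    exact h3
  unfold KEnv.WC
  by_cases hg : k ∈ E.B1 i ∪ E.B2 i
  · rw [if_pos hg]
    rcases mem_union.mp hg with hB | hB
    · exact LM.case_B1 hji hi₁ hk z z' ε hz hD h1 h2 hFF (hev.o1 i hji k hB) hB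
    · exact LM.case_B2 hji hi₁ hk z z' ε hz hD h1 h2 hFF (hev.o2 i hji k hB) hB
  · rw [if_neg hg]
    exact LM.case_good hji hi₁ hk z z' ε hD h1 hg

end Pool.Agent.Q298.KZ
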