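import Pool.Agent.Q298.KZ.LM

/-! Job KZ-TS. -/

set_option autoImplicit false

namespace Pool.Agent.Q298.KZ

open Finset Filter Topology MeasureTheory
open scoped Classical
open Pool.Agent.W76.MO (hh nc cell lp Rough hh_pos nc_mul floor_le_i)
open Q236.CM (LP LP_mul LP_one LP_prime LP_nonneg LP_le LP_div LP_pow)
open Pool.Agent.Q18.KZ

namespace TS

variable {E : KEnv} {V : ℕ → Bool}

lemma mem_Lq {i k v q : ℕ} : q ∈ E.Lq i k v ↔
    q < 2 ^ (i + 1) + 1 ∧ q.Prime ∧ E.Lt i q ∧ v * q ∈ cell E.δ i k := by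
  unfold KEnv.Lq LqD
  rw [mem_filter, mem_range]

lemma fam1_mem {i k v q : ℕ} (hi₁ : E.i₁ ≤ i) (hk : k ∈ E.B1 i) (hv : v ∈ E.Us i k)
    (hq : q ∈ E.Lq i k v ∨ q ∈ E.Lq i (E.pi i k) v) : (v, q) ∈ E.Fam1 i := by
  unfold KEnv.Fam1
  rw [mem_filter, mem_product, mem_range]
  unfold KEnv.Act1 ActD
  rcases hq with hq | hq <;> rw [mem_Lq] at hq
  · refine ⟨⟨E.us_sub i hi₁ k hk hv, hq.1⟩, hq.2.1, hq.2.2.1, ?_⟩
    rw [mem_biUnion]
    exact ⟨k, mem_union_left _ hk, hq.2.2.2⟩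
  · refine ⟨⟨E.us_sub i hi₁ k hk hv, hq.1⟩, hq.2.1, hq.2.2.1, ?_⟩
    rw [mem_biUnion]
    exact ⟨E.pi i k, mem_union_right _ (mem_image_of_mem _ hk), hq.2.2.2⟩

lemma G1_supp (hFF : S_FF) {i k q : ℕ} (hi₁ : E.i₁ ≤ i) (hk : k ∈ E.B1 i)
    (h : E.G1 V i k q ≠ 0) : q.Prime ∧ (2 : ℝ) ^ (0.615 * (i : ℝ)) ≤ q := by
  unfold KEnv.G1 at h
  have h2 : ∃ v ∈ (E.Us i k).filter (fun v => V v = true),
      (q ∈ E.Lq i k v ∨ q ∈ E.Lq i (E.pi i k) v) := by
    by_contra hcon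
    push Not at hcon
    apply h
    rw [Finset.sum_eq_zero, mul_zero]
    intro v hv
    obtain ⟨h3, h4⟩ := hcon v hv
    rw [if_neg h3, if_neg h4]
    ring
  obtain ⟨v, hv, hq⟩ := h2
  have h3 := (hFF E i hi₁).1 _ (fam1_mem hi₁ hk (mem_filter.mp hv).1 hq)
  exact ⟨h3.2.1, h3.2.2.2.2.1⟩

/-- the far scales -/
noncomputable def Rs (I : ℕ) : Finset ℕ := (range (2 * I + 1)).filter (fun i : ℕ => 1.166 * (I : ℝ) < i)

lemma fr_eq (hFF : S_FF) {j I q : ℕ} (hj : E.i₁ ≤ j) (hjI : j ≤ I) (θ : ℕ × ℕ → ℝ)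
    (hq : q ≤ 2 ^ (I + 1)) :
    E.fr V j I θ q = ∑ i ∈ Rs I, ∑ k ∈ E.B1 i, θ (i, k) * E.G1 V i k q := by
  have hI2 : 1000 ≤ I := by
    have := E.hi₁
    omega
  have hI2r : (1000 : ℝ) ≤ I := by exact_mod_cast hI2
  have hqr : (q : ℝ) ≤ (2 : ℝ) ^ ((I : ℝ) + 1) := by
    have : (q : ℝ) ≤ (2 : ℝ) ^ (I + 1) := by exact_mod_cast hq
    refine this.trans (le_of_eq ?_)
    rw [← Real.rpow_natCast]
    push_cast
    rfl
  unfold KEnv.fr
  have h1 : ∀ i ∈ KEnv.hs j q, (if (i : ℝ) ≤ 1.166 * I then 0 else ∑ k ∈ E.B1 i, θ (i, k) * E.G1 V i k q) =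
      (if ¬ (i : ℝ) ≤ 1.166 * I then ∑ k ∈ E.B1 i, θ (i, k) * E.G1 V i k q else 0) := by
    intro i _
    split_ifs <;> rfl
  rw [Finset.sum_congr rfl h1, ← Finset.sum_filter]
  refine Finset.sum_congr_of_eq_on_inter ?_ ?_ (fun _ _ _ => rfl)
  · intro i hi hR
    rw [mem_filter] at hi
    obtain ⟨hi1, hi2⟩ := hi
    have hji : j ≤ i := by
      unfold KEnv.hs at hi1
      exact (mem_filter.mp hi1).2
    have h2I : 2 * I + 1 ≤ i := by
      by_contra hcon
      apply hR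
      unfold Rs
      rw [mem_filter, mem_range]
      exact ⟨by omega, by linarith⟩
    have h2Ir : 2 * (I : ℝ) + 1 ≤ i := by exact_mod_cast h2I
    refine Finset.sum_eq_zero fun k hk => ?_
    have : E.G1 V i k q = 0 := by
      by_contra hne
      obtain ⟨_, h3⟩ := G1_supp hFF (hj.trans hji) hk hne
      have h4 := h3.trans hqr
      rw [Real.rpow_le_rpow_left_iff one_lt_two] at h4
      nlinarith
    rw [this, mul_zero]
  · intro i hi hR
    unfold Rs at hi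
    rw [mem_filter, mem_range] at hi
    have hIi : (I : ℝ) ≤ i := by nlinarith [hi.2]
    have hIi' : I ≤ i := by exact_mod_cast hIi
    refine Finset.sum_eq_zero fun k hk => ?_
    have : E.G1 V i k q = 0 := by
      by_contra hne
      obtain ⟨h2, h3⟩ := G1_supp hFF (by omega) hk hne
      apply hR
      rw [mem_filter]
      refine ⟨LM.mem_hs (by omega) (le_trans ?_ h3), by linarith [hi.2]⟩
      apply Real.rpow_le_rpow_of_exponent_le one_le_two
      nlinarith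
    rw [this, mul_zero]

/-- the host primes for the cofactor `m` -/
noncomputable def Qm (I a b m : ℕ) : Finset ℕ := (range (2 ^ (I + 1) + 1)).filter
  (fun q : ℕ => q.Prime ∧ (2 : ℝ) ^ (0.7 * (I : ℝ)) < q ∧ m * q ∈ Ioc a b)

/-- rearrangement by the cofactor -/
lemma swap (I a b : ℕ) (hb : b ≤ 2 ^ (I + 1)) (f φ : ℕ → ℝ) :
    ∑ n ∈ Ioc a b, ∑ q ∈ n.primeFactors.filter (fun q : ℕ => (2 : ℝ) ^ (0.7 * (I : ℝ)) < q),
        f q * φ (n / q) =
      ∑ m ∈ Icc 1 (2 ^ (I + 1)), ∑ q ∈ Qm I a b m, f q * φ m := by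
  rw [Finset.sum_sigma', Finset.sum_sigma']
  refine Finset.sum_nbij' (fun x => ⟨x.1 / x.2, x.2⟩) (fun y => ⟨y.1 * y.2, y.2⟩) ?_ ?_ ?_ ?_ ?_
  · rintro ⟨n, q⟩ h
    rw [mem_sigma, mem_Ioc, mem_filter, Nat.mem_primeFactors] at h
    obtain ⟨⟨h1, h2⟩, ⟨hq, hqn, hn0⟩, h3⟩ := h
    simp only at h1 h2 hq hqn hn0 h3
    have h4 : n / q * q = n := Nat.div_mul_cancel hqn
    have h5 : 0 < n / q := Nat.div_pos (Nat.le_of_dvd (by omega) hqn) hq.pos
    have h6 : q ≤ n := Nat.le_of_dvd (by omega) hqn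
    have h7 : n / q ≤ n := Nat.div_le_self _ _
    rw [mem_sigma, mem_Icc]
    refine ⟨⟨h5, by simp only; omega⟩, ?_⟩
    unfold Qm
    rw [mem_filter, mem_range]
    simp only
    rw [h4, mem_Ioc]
    exact ⟨by omega, hq, h3, h1, h2⟩
  · rintro ⟨m, q⟩ h
    rw [mem_sigma, mem_Icc] at h
    obtain ⟨⟨h1, h2⟩, h3⟩ := h
    unfold Qm at h3
    rw [mem_filter, mem_range] at h3
    simp only at h1 h2 h3
    obtain ⟨h4, hq, h5, h6⟩ := h3
    rw [mem_sigma]
    refine ⟨h6, ?_⟩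
    simp only
    rw [mem_filter, Nat.mem_primeFactors]
    exact ⟨⟨hq, dvd_mul_left q m, Nat.mul_ne_zero (by omega) hq.ne_zero⟩, h5⟩
  · rintro ⟨n, q⟩ h
    rw [mem_sigma, mem_filter, Nat.mem_primeFactors] at h
    simp only at h
    simp only
    rw [Nat.div_mul_cancel h.2.1.2.1]
  · rintro ⟨m, q⟩ h
    rw [mem_sigma] at h
    have h3 := h.2
    unfold Qm at h3
    rw [mem_filter] at h3
    simp only at h3
    simp only
    rw [Nat.mul_div_cancel _ h3.2.1.pos]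
  · rintro ⟨n, q⟩ h
    rfl

/-- the end point `e` is close -/
def PP (E : KEnv) (i m e k v : ℕ) : Prop :=
  |((2 : ℝ) ^ i + k * hh E.δ i) * m - v * e| ≤ (2 : ℝ) ^ (0.57 * (i : ℝ) + 2) * m

lemma hh_small (i : ℕ) : (hh E.δ i : ℝ) ≤ (2 : ℝ) ^ (0.57 * (i : ℝ)) := by
  refine (hh_le E i).trans ?_
  apply Real.rpow_le_rpow_of_exponent_le one_le_two
  have := E.hδ
  have : (0 : ℝ) ≤ i := Nat.cast_nonneg i
  nlinarith

lemma geo {i k v q : ℕ} (hi₁ : E.i₁ ≤ i) (hk : k ∈ E.B1 i)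
    (hq : q ∈ E.Lq i k v ∨ q ∈ E.Lq i (E.pi i k) v) :
    |(v : ℝ) * q - ((2 : ℝ) ^ i + k * hh E.δ i)| ≤ (2 : ℝ) ^ (0.57 * (i : ℝ) + 2) := by
  have h1 := hh_small (E := E) i
  have h2 : (2 : ℝ) ^ (0.57 * (i : ℝ) + 2) = 4 * (2 : ℝ) ^ (0.57 * (i : ℝ)) := by
    rw [Real.rpow_add (by norm_num)]
    norm_num
    ring
  have h3 : 0 < (2 : ℝ) ^ (0.57 * (i : ℝ)) := by positivity
  have h4 : (0 : ℝ) ≤ hh E.δ i := Nat.cast_nonneg _
  rw [h2]
  rcases hq with hq | hq <;> rw [mem_Lq, cell_eq, mem_Ioc] at hq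
  · obtain ⟨_, _, _, h5, h6⟩ := hq
    have h5' : (2 : ℝ) ^ i + k * hh E.δ i < (v : ℝ) * q := by exact_mod_cast h5
    have h6' : (v : ℝ) * q ≤ (2 : ℝ) ^ i + (k + 1) * hh E.δ i := by exact_mod_cast h6
    rw [abs_le]
    constructor <;> nlinarith
  · obtain ⟨_, _, _, h5, h6⟩ := hq
    have h5' : (2 : ℝ) ^ i + (E.pi i k : ℝ) * hh E.δ i < (v : ℝ) * q := by exact_mod_cast h5
    have h6' : (v : ℝ) * q ≤ (2 : ℝ) ^ i + ((E.pi i k : ℝ) + 1) * hh E.δ i := by exact_mod_cast h6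
    have h7 := E.pi_near i hi₁ k hk
    have h8 : |((k : ℝ) - (E.pi i k : ℝ)) * hh E.δ i| ≤ (2 : ℝ) ^ (0.57 * (i : ℝ)) := by
      rw [abs_mul, abs_of_nonneg h4]
      exact h7
    rw [abs_le] at h8 ⊢
    constructor <;> nlinarith

lemma PP_of {i m e k v q q' : ℕ} (hi₁ : E.i₁ ≤ i) (hk : k ∈ E.B1 i)
    (hq : q ∈ E.Lq i k v ∨ q ∈ E.Lq i (E.pi i k) v)
    (hq' : q' ∈ E.Lq i k v ∨ q' ∈ E.Lq i (E.pi i k) v) (h1 : m * q' ≤ e) (h2 : e < m * q) :
    PP E i m e k v := by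
  unfold PP
  have h3 := geo hi₁ hk hq
  have h4 := geo hi₁ hk hq'
  have h1' : (m : ℝ) * q' ≤ e := by exact_mod_cast h1
  have h2' : (e : ℝ) ≤ m * q := by exact_mod_cast h2.le
  have hm : (0 : ℝ) ≤ m := Nat.cast_nonneg m
  have hv : (0 : ℝ) ≤ v := Nat.cast_nonneg v
  set A := (2 : ℝ) ^ i + k * hh E.δ i with hA
  set D := (2 : ℝ) ^ (0.57 * (i : ℝ) + 2) with hD
  rw [abs_le] at h3 h4 ⊢
  have h5 := mul_le_mul_of_nonneg_left h1' hv
  have h6 := mul_le_mul_of_nonneg_left h2' hv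
  have h7 := mul_le_mul_of_nonneg_right h3.2 hm
  have h8 := mul_le_mul_of_nonneg_right h4.1 hm
  constructor <;> nlinarith

/-- the number of the host primes in the interval -/
noncomputable def NN (L : Finset ℕ) (m a b : ℕ) : ℕ := (L.filter (fun q => m * q ∈ Ioc a b)).card

lemma bracket {i m k v a b : ℕ} (hi₁ : E.i₁ ≤ i) (hk : k ∈ E.B1 i)
    (hc1 : 0 < (E.Lq i k v).card) (hc2 : 0 < (E.Lq i (E.pi i k) v).card) :
    |(NN (E.Lq i k v) m a b : ℝ) / (E.Lq i k v).card -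
      (NN (E.Lq i (E.pi i k) v) m a b : ℝ) / (E.Lq i (E.pi i k) v).card| ≤
      (if PP E i m a k v then 1 else 0) + (if PP E i m b k v then 1 else 0) := by
  set L1 := E.Lq i k v with hL1
  set L2 := E.Lq i (E.pi i k) v with hL2
  have hr1 : (0 : ℝ) < L1.card := by exact_mod_cast hc1
  have hr2 : (0 : ℝ) < L2.card := by exact_mod_cast hc2
  by_cases hP : PP E i m a k v ∨ PP E i m b k v
  · have h1 : (1 : ℝ) ≤ (if PP E i m a k v then 1 else 0) + (if PP E i m b k v then 1 else 0) := by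
      rcases hP with h | h
      · rw [if_pos h]
        split_ifs <;> norm_num
      · rw [if_pos h]
        split_ifs <;> norm_num
    refine le_trans ?_ h1
    have h2 : (NN L1 m a b : ℝ) ≤ L1.card := by exact_mod_cast Finset.card_filter_le _ _
    have h3 : (NN L2 m a b : ℝ) ≤ L2.card := by exact_mod_cast Finset.card_filter_le _ _
    have h4 : (NN L1 m a b : ℝ) / L1.card ≤ 1 := (div_le_one hr1).mpr h2
    have h5 : (NN L2 m a b : ℝ) / L2.card ≤ 1 := (div_le_one hr2).mpr h3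
    have h6 : 0 ≤ (NN L1 m a b : ℝ) / L1.card := by positivity
    have h7 : 0 ≤ (NN L2 m a b : ℝ) / L2.card := by positivity
    rw [abs_le]
    constructor <;> linarith
  · push Not at hP
    obtain ⟨hPa, hPb⟩ := hP
    rw [if_neg hPa, if_neg hPb, add_zero]
    apply le_of_eq
    rw [abs_eq_zero]
    by_cases hex : ∃ q, (q ∈ L1 ∨ q ∈ L2) ∧ m * q ∈ Ioc a b
    · obtain ⟨q₁, hq₁, hin⟩ := hex
      rw [mem_Ioc] at hin
      have hall : ∀ q, (q ∈ L1 ∨ q ∈ L2) → m * q ∈ Ioc a b := by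
        intro q hq
        rw [mem_Ioc]
        by_contra hcon
        rw [not_and_or, not_lt, not_le] at hcon
        rcases hcon with h | h
        · exact hPa (PP_of hi₁ hk hq₁ hq h hin.1)
        · exact hPb (PP_of hi₁ hk hq hq₁ hin.2 h)
      have h1 : NN L1 m a b = L1.card := by
        unfold NN
        rw [Finset.filter_true_of_mem fun q hq => hall q (Or.inl hq)]
      have h2 : NN L2 m a b = L2.card := by
        unfold NN
        rw [Finset.filter_true_of_mem fun q hq => hall q (Or.inr hq)]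
      rw [h1, h2, div_self hr1.ne', div_self hr2.ne', sub_self]
    · push Not at hex
      have h1 : NN L1 m a b = 0 := by
        unfold NN
        rw [Finset.filter_false_of_mem fun q hq => hex q (Or.inl hq), card_empty]
      have h2 : NN L2 m a b = 0 := by
        unfold NN
        rw [Finset.filter_false_of_mem fun q hq => hex q (Or.inr hq), card_empty]
      rw [h1, h2]
      simp

lemma G1_sum (hFF : S_FF) {i m k a b I : ℕ} (hi₁ : E.i₁ ≤ i) (hk : k ∈ E.B1 i)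
    (hO : E.cu / 2 ≤ E.Om1 V i k) (hI : 1.166 * (I : ℝ) < i) (hI0 : 0 < I) (hm : 1 ≤ m)
    (hb : b ≤ 2 ^ (I + 1)) :
    |∑ q ∈ Qm I a b m, E.G1 V i k q| ≤ 2 / E.cu * ∑ v ∈ (E.Us i k).filter (fun v => V v = true),
      (v : ℝ) ^ (dd - d1) * ww E.δ i *
        ((if PP E i m a k v then 1 else 0) + (if PP E i m b k v then 1 else 0)) := by
  have hcu := E.hcu
  have hOpos : 0 < E.Om1 V i k := lt_of_lt_of_le (by positivity) hO
  have hIr : (0 : ℝ) < I := by exact_mod_cast hI0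
  have hi0 : (0 : ℝ) < i := by nlinarith
  have hcards : ∀ v ∈ (E.Us i k).filter (fun v => V v = true),
      0 < (E.Lq i k v).card ∧ 0 < (E.Lq i (E.pi i k) v).card := by
    intro v hv
    have hvVR : v ∈ VR i := E.us_sub i hi₁ k hk (mem_filter.mp hv).1
    have hvp : v.Prime := by
      unfold VR at hvVR
      exact (mem_filter.mp hvVR).2.1
    obtain ⟨h1, h1'⟩ := E.us_q i hi₁ k hk v (mem_filter.mp hv).1
    have h2 : (0 : ℝ) < hh E.δ i := by exact_mod_cast hh_pos E.δ i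
    have h3 : (0 : ℝ) < v := by exact_mod_cast hvp.pos
    have h4 := E.hcq
    have h5 : 0 < E.cq * hh E.δ i / (v * i) := by positivity
    exact ⟨by exact_mod_cast h5.trans_le h1, by exact_mod_cast h5.trans_le h1'⟩
  have hpart : ∀ v ∈ (E.Us i k).filter (fun v => V v = true), ∀ L : Finset ℕ,
      (L = E.Lq i k v ∨ L = E.Lq i (E.pi i k) v) →
      ∑ q ∈ Qm I a b m, (if q ∈ L then 1 / (L.card : ℝ) else 0) = (NN L m a b : ℝ) / L.card := by
    intro v hv L hL
    rw [← Finset.sum_filter, Finset.sum_const, nsmul_eq_mul, mul_one_div]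
    congr 2
    unfold NN
    congr 1
    ext q
    rw [mem_filter, mem_filter]
    constructor
    · rintro ⟨h1, h2⟩
      unfold Qm at h1
      rw [mem_filter] at h1
      exact ⟨h2, h1.2.2.2⟩
    · rintro ⟨h1, h2⟩
      refine ⟨?_, h1⟩
      have hq : q ∈ E.Lq i k v ∨ q ∈ E.Lq i (E.pi i k) v := by
        rcases hL with rfl | rfl
        · exact Or.inl h1
        · exact Or.inr h1
      have h3 := (hFF E i hi₁).1 _ (fam1_mem hi₁ hk (mem_filter.mp hv).1 hq)
      unfold Qm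
      rw [mem_filter, mem_range]
      have h4 := mem_Ioc.mp h2
      have h5 : q ≤ m * q := Nat.le_mul_of_pos_left q hm
      refine ⟨by omega, h3.2.1, ?_, h2⟩
      refine lt_of_lt_of_le ?_ h3.2.2.2.2.1
      apply Real.rpow_lt_rpow_of_exponent_lt one_lt_two
      nlinarith
  have hsum : ∑ q ∈ Qm I a b m, E.G1 V i k q = E.al * ww E.δ i *
      ∑ v ∈ (E.Us i k).filter (fun v => V v = true), (v : ℝ) ^ (dd - d1) / E.Om1 V i k *
        ((NN (E.Lq i k v) m a b : ℝ) / (E.Lq i k v).card -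
          (NN (E.Lq i (E.pi i k) v) m a b : ℝ) / (E.Lq i (E.pi i k) v).card) := by
    unfold KEnv.G1
    rw [← Finset.mul_sum, Finset.sum_comm]
    congr 1
    refine Finset.sum_congr rfl fun v hv => ?_
    rw [← Finset.mul_sum, Finset.sum_sub_distrib, hpart v hv _ (Or.inl rfl), hpart v hv _ (Or.inr rfl)]
  rw [hsum, abs_mul, abs_of_nonneg (LM.aw_nonneg E i)]
  have h1 : |∑ v ∈ (E.Us i k).filter (fun v => V v = true), (v : ℝ) ^ (dd - d1) / E.Om1 V i k *
        ((NN (E.Lq i k v) m a b : ℝ) / (E.Lq i k v).card -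
          (NN (E.Lq i (E.pi i k) v) m a b : ℝ) / (E.Lq i (E.pi i k) v).card)| ≤
      ∑ v ∈ (E.Us i k).filter (fun v => V v = true), (v : ℝ) ^ (dd - d1) * (2 / E.cu) *
        ((if PP E i m a k v then 1 else 0) + (if PP E i m b k v then 1 else 0)) := by
    refine (Finset.abs_sum_le_sum_abs _ _).trans (Finset.sum_le_sum fun v hv => ?_)
    have hc : 0 ≤ (v : ℝ) ^ (dd - d1) / E.Om1 V i k := by positivity
    rw [abs_mul, abs_of_nonneg hc]
    apply mul_le_mul _ (bracket hi₁ hk (hcards v hv).1 (hcards v hv).2) (abs_nonneg _) (by positivity)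
    rw [div_eq_mul_inv]
    apply mul_le_mul_of_nonneg_left _ (by positivity)
    rw [inv_le_comm₀ hOpos (by positivity)]
    rw [inv_div]
    exact hO
  have hal : E.al ≤ 1 := (al_le E).trans (by norm_num)
  have hww := ww_nonneg E.δ i
  calc E.al * ww E.δ i * |∑ v ∈ (E.Us i k).filter (fun v => V v = true), (v : ℝ) ^ (dd - d1) / E.Om1 V i k *
        ((NN (E.Lq i k v) m a b : ℝ) / (E.Lq i k v).card -
          (NN (E.Lq i (E.pi i k) v) m a b : ℝ) / (E.Lq i (E.pi i k) v).card)| ≤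
      1 * ww E.δ i * ∑ v ∈ (E.Us i k).filter (fun v => V v = true), (v : ℝ) ^ (dd - d1) * (2 / E.cu) *
        ((if PP E i m a k v then 1 else 0) + (if PP E i m b k v then 1 else 0)) := by
        apply mul_le_mul _ h1 (abs_nonneg _) (by positivity)
        exact mul_le_mul_of_nonneg_right hal hww
    _ = _ := by
        rw [one_mul, Finset.mul_sum, Finset.mul_sum]
        refine Finset.sum_congr rfl fun v _ => ?_
        ring

/-- the part of `FT` at the cofactor `m` -/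
noncomputable def YY (E : KEnv) (V : ℕ → Bool) (i m e : ℕ) : ℝ :=
  ∑ v ∈ (VR i).filter (fun v => V v = true), (v : ℝ) ^ (dd - d1) * ww E.δ i *
    (((E.B1 i).filter (fun k => v ∈ E.Us i k ∧ PP E i m e k v)).card : ℝ)

lemma FT_eq (j i I e : ℕ) : FT E V j i I e =
    ∑ m ∈ (Icc 1 ⌊(2 : ℝ) ^ (0.3 * (I : ℝ))⌋₊).filter (Rg j), SV V m * YY E V i m e := rfl

lemma YY_nonneg (i m e : ℕ) : 0 ≤ YY E V i m e := by
  unfold YY
  refine Finset.sum_nonneg fun v _ => ?_
  have := ww_nonneg E.δ i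
  positivity

lemma YY_eq {i : ℕ} (hi₁ : E.i₁ ≤ i) (m e : ℕ) :
    ∑ k ∈ E.B1 i, ∑ v ∈ (E.Us i k).filter (fun v => V v = true), (v : ℝ) ^ (dd - d1) * ww E.δ i *
      (if PP E i m e k v then 1 else 0) = YY E V i m e := by
  have h1 : ∀ k ∈ E.B1 i, ∑ v ∈ (E.Us i k).filter (fun v => V v = true), (v : ℝ) ^ (dd - d1) * ww E.δ i *
      (if PP E i m e k v then 1 else 0) =
      ∑ v ∈ (VR i).filter (fun v => V v = true), (v : ℝ) ^ (dd - d1) * ww E.δ i *
        (if v ∈ E.Us i k ∧ PP E i m e k v then 1 else 0) := by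
    intro k hk
    have hsub := E.us_sub i hi₁ k hk
    have h2 : (E.Us i k).filter (fun v => V v = true) =
        ((VR i).filter (fun v => V v = true)).filter (fun v => v ∈ E.Us i k) := by
      ext v
      simp only [mem_filter]
      constructor
      · rintro ⟨h3, h4⟩
        exact ⟨⟨hsub h3, h4⟩, h3⟩
      · rintro ⟨⟨_, h4⟩, h3⟩
        exact ⟨h3, h4⟩
    rw [h2, Finset.sum_filter (fun v => v ∈ E.Us i k)]
    refine Finset.sum_congr rfl fun v _ => ?_
    by_cases h3 : v ∈ E.Us i k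
    · rw [if_pos h3]
      by_cases h4 : PP E i m e k v
      · rw [if_pos h4, if_pos ⟨h3, h4⟩]
      · rw [if_neg h4, if_neg (fun h => h4 h.2)]
    · rw [if_neg h3, if_neg (fun h => h3 h.1), mul_zero]
  rw [Finset.sum_congr rfl h1, Finset.sum_comm]
  unfold YY
  refine Finset.sum_congr rfl fun v _ => ?_
  rw [← Finset.mul_sum]
  congr 1
  rw [Finset.sum_boole]

lemma SV_nonneg (m : ℕ) : 0 ≤ SV V m := by
  unfold SV
  exact Finset.sum_nonneg fun l _ => by positivity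

end TS

open TS in
theorem t_TS (hDSV : S_DSV) (hFF : S_FF) : S_TS := by
  intro E
  obtain ⟨J1, hJ1⟩ := ev_pow 1 (1 / 4000) (12 / E.cu) (by norm_num)
  refine KZAll.mono (KZAll.and (KZAll.and (hDSV E) (KZAll.ev E)) (KZAll.large E (max E.i₁ J1))) ?_
  rintro η j V ⟨⟨hdsv, hev⟩, hJ⟩
  intro I a b φ θ hjI ha hab hb hφ hθ
  have hi₁j : E.i₁ ≤ j := (le_max_left _ _).trans hJ
  have hI0 : 1000 ≤ I := by have := E.hi₁; omega
  have hIr : (1000 : ℝ) ≤ I := by exact_mod_cast hI0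
  have hcu := E.hcu
  set M := ⌊(2 : ℝ) ^ (0.3 * (I : ℝ))⌋₊ with hM
  -- the sum over `q`
  set X : ℕ → ℝ := fun m => ∑ i ∈ Rs I, ∑ k ∈ E.B1 i, θ (i, k) * ∑ q ∈ Qm I a b m, E.G1 V i k q with hX
  have hscale : ∀ i ∈ Rs I, 1.166 * (I : ℝ) < i ∧ E.i₁ ≤ i ∧ i ≤ 2 * I := by
    intro i hi
    unfold Rs at hi
    rw [mem_filter, mem_range] at hi
    have h1 : (I : ℝ) < i := by nlinarith [hi.2]
    have h2 : I < i := by exact_mod_cast h1
    exact ⟨hi.2, by omega, by omega⟩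
  have hS1 : ∑ n ∈ Ioc a b, ∑ q ∈ n.primeFactors.filter (fun q : ℕ => (2 : ℝ) ^ (0.7 * (I : ℝ)) < q),
        E.fr V j I θ q * φ (n / q) = ∑ m ∈ Icc 1 (2 ^ (I + 1)), φ m * X m := by
    rw [swap I a b hb (E.fr V j I θ) φ]
    refine Finset.sum_congr rfl fun m _ => ?_
    rw [← Finset.sum_mul, mul_comm]
    congr 1
    have h1 : ∀ q ∈ Qm I a b m, E.fr V j I θ q = ∑ i ∈ Rs I, ∑ k ∈ E.B1 i, θ (i, k) * E.G1 V i k q := by
      intro q hq
      apply fr_eq hFF hi₁j hjI θ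
      unfold Qm at hq
      rw [mem_filter, mem_range] at hq
      omega
    rw [Finset.sum_congr rfl h1, Finset.sum_comm]
    simp only [hX]
    refine Finset.sum_congr rfl fun i _ => ?_
    rw [Finset.sum_comm]
    refine Finset.sum_congr rfl fun k _ => ?_
    rw [Finset.mul_sum]
  have hXz : ∀ m : ℕ, M < m → X m = 0 := by
    intro m hm
    simp only [hX]
    refine Finset.sum_eq_zero fun i hi => Finset.sum_eq_zero fun k hk => ?_
    obtain ⟨h1, h2, h3⟩ := hscale i hi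
    rw [Finset.sum_eq_zero, mul_zero]
    intro q hq
    by_contra hne
    obtain ⟨_, h4⟩ := G1_supp hFF h2 hk hne
    unfold Qm at hq
    rw [mem_filter, mem_Ioc] at hq
    have h5 : (m : ℝ) * q ≤ 2 ^ (I + 1) := by exact_mod_cast hq.2.2.2.2.trans hb
    have h6 : (2 : ℝ) ^ (0.3 * (I : ℝ)) < m := by
      rw [hM] at hm
      exact Nat.lt_of_floor_lt hm
    have h7 : (2 : ℝ) ^ (0.3 * (I : ℝ)) * (2 : ℝ) ^ (0.615 * (i : ℝ)) ≤ m * q :=
      mul_le_mul h6.le h4 (by positivity) (Nat.cast_nonneg m)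
    rw [← Real.rpow_add (by norm_num)] at h7
    have h8 := h7.trans h5
    rw [← Real.rpow_natCast, Real.rpow_le_rpow_left_iff one_lt_two] at h8
    push_cast at h8
    nlinarith
  have hMle : M ≤ 2 ^ (I + 1) := by
    have h1 : (M : ℝ) ≤ (2 : ℝ) ^ (0.3 * (I : ℝ)) := Nat.floor_le (by positivity)
    have h2 : (2 : ℝ) ^ (0.3 * (I : ℝ)) ≤ (2 : ℝ) ^ (((I + 1 : ℕ)) : ℝ) := by
      apply Real.rpow_le_rpow_of_exponent_le one_le_two
      push_cast
      linarith
    rw [Real.rpow_natCast] at h2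
    exact_mod_cast h1.trans h2
  have hS2 : ∑ m ∈ Icc 1 (2 ^ (I + 1)), φ m * X m = ∑ m ∈ Icc 1 M, φ m * X m := by
    symm
    apply Finset.sum_subset (Icc_subset_Icc le_rfl hMle)
    intro m hm hm'
    rw [mem_Icc] at hm hm'
    rw [hXz m (by omega), mul_zero]
  have hXb : ∀ m ∈ Icc 1 M, |X m| ≤ 2 / E.cu * ∑ i ∈ Rs I, (YY E V i m a + YY E V i m b) := by
    intro m hm
    rw [mem_Icc] at hm
    simp only [hX]
    refine (Finset.abs_sum_le_sum_abs _ _).trans ?_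
    rw [Finset.mul_sum]
    refine Finset.sum_le_sum fun i hi => ?_
    obtain ⟨h1, h2, h3⟩ := hscale i hi
    have hji : j ≤ i := by
      have : (I : ℝ) < i := by nlinarith
      have : I < i := by exact_mod_cast this
      omega
    refine (Finset.abs_sum_le_sum_abs _ _).trans ?_
    rw [← YY_eq h2 m a, ← YY_eq h2 m b, ← Finset.sum_add_distrib, Finset.mul_sum]
    refine Finset.sum_le_sum fun k hk => ?_
    rw [abs_mul]
    have h4 := G1_sum (V := V) hFF (a := a) h2 hk (hev.o1 i hji k hk) h1 (by omega : 0 < I) hm.1 hb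
    calc |θ (i, k)| * |∑ q ∈ Qm I a b m, E.G1 V i k q| ≤ 1 * |∑ q ∈ Qm I a b m, E.G1 V i k q| :=
          mul_le_mul_of_nonneg_right (hθ _) (abs_nonneg _)
      _ = |∑ q ∈ Qm I a b m, E.G1 V i k q| := one_mul _
      _ ≤ 2 / E.cu * ∑ v ∈ (E.Us i k).filter (fun v => V v = true),
            (v : ℝ) ^ (dd - d1) * ww E.δ i *
            ((if PP E i m a k v then 1 else 0) + (if PP E i m b k v then 1 else 0)) := h4
      _ = _ := by
          rw [← Finset.sum_add_distrib]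
          congr 1
          refine Finset.sum_congr rfl fun v _ => ?_
          rw [mul_add]
  have hφb : ∀ m ∈ Icc 1 M, |φ m| ≤ (if Rg j m then (2 : ℝ) ^ ((I : ℝ) / 10 ^ 14) * SV V m else 0) := by
    intro m hm
    rw [mem_Icc] at hm
    refine (hφ m (by omega)).trans (hdsv I m (by omega) (by omega) ?_)
    have : (2 : ℕ) ^ (I + 1) ≤ 2 ^ (I + 2) := Nat.pow_le_pow_right (by norm_num) (by omega)
    omega
  rw [hS1, hS2]
  set c := (2 : ℝ) ^ ((I : ℝ) / 10 ^ 14) with hc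
  have hmain : |∑ m ∈ Icc 1 M, φ m * X m| ≤ 2 / E.cu * c *
      ∑ i ∈ Rs I, (FT E V j i I a + FT E V j i I b) := by
    refine (Finset.abs_sum_le_sum_abs _ _).trans ?_
    have h1 : ∀ m ∈ Icc 1 M, |φ m * X m| ≤ 2 / E.cu * c * ∑ i ∈ Rs I,
        ((if Rg j m then SV V m * YY E V i m a else 0) + (if Rg j m then SV V m * YY E V i m b else 0)) := by
      intro m hm
      rw [abs_mul]
      have h2 := hφb m hm
      have h3 := hXb m hm
      have h4 : 0 ≤ ∑ i ∈ Rs I, (YY E V i m a + YY E V i m b) :=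
        Finset.sum_nonneg fun i _ => add_nonneg (YY_nonneg _ _ _) (YY_nonneg _ _ _)
      have h5 := SV_nonneg (V := V) m
      by_cases hR : Rg j m
      · rw [if_pos hR] at h2
        simp only [if_pos hR]
        calc |φ m| * |X m| ≤ (c * SV V m) * (2 / E.cu * ∑ i ∈ Rs I, (YY E V i m a + YY E V i m b)) :=
              mul_le_mul h2 h3 (abs_nonneg _) (by positivity)
          _ = _ := by
              have e : ∑ i ∈ Rs I, (SV V m * YY E V i m a + SV V m * YY E V i m b) =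
                  SV V m * ∑ i ∈ Rs I, (YY E V i m a + YY E V i m b) := by
                rw [Finset.mul_sum]
                refine Finset.sum_congr rfl fun i _ => by ring
              rw [e]
              ring
      · rw [if_neg hR] at h2
        simp only [if_neg hR]
        have h6 : |φ m| = 0 := le_antisymm h2 (abs_nonneg _)
        rw [h6]
        simp
    refine (Finset.sum_le_sum h1).trans (le_of_eq ?_)
    rw [← Finset.mul_sum]
    congr 1
    rw [Finset.sum_comm]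
    refine Finset.sum_congr rfl fun i _ => ?_
    rw [Finset.sum_add_distrib, FT_eq, FT_eq, Finset.sum_filter, Finset.sum_filter]
  refine hmain.trans ?_
  have hFT : ∀ i ∈ Rs I, FT E V j i I a + FT E V j i I b ≤ 2 * (2 : ℝ) ^ (-(1 / 2 + 1 / 1000) * (I : ℝ)) := by
    intro i hi
    obtain ⟨h1, h2, h3⟩ := hscale i hi
    have h4 := hev.t I a i hjI ha (hab.trans hb) h1 h3
    have h5 := hev.t I b i hjI (ha.trans hab) hb h1 h3
    linarith
  have hcardR : ((Rs I).card : ℝ) ≤ 3 * I := by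
    have h1 : (Rs I).card ≤ 2 * I + 1 := by
      unfold Rs
      refine (Finset.card_filter_le _ _).trans ?_
      rw [card_range]
    have h2 : ((Rs I).card : ℝ) ≤ 2 * I + 1 := by exact_mod_cast h1
    linarith
  have hsumFT : ∑ i ∈ Rs I, (FT E V j i I a + FT E V j i I b) ≤
      3 * I * (2 * (2 : ℝ) ^ (-(1 / 2 + 1 / 1000) * (I : ℝ))) := by
    refine (Finset.sum_le_sum hFT).trans ?_
    rw [Finset.sum_const, nsmul_eq_mul]
    exact mul_le_mul_of_nonneg_right hcardR (by positivity)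
  have hexp := hJ1 I ((le_max_right _ _).trans (hJ.trans hjI))
  rw [pow_one] at hexp
  calc 2 / E.cu * c * ∑ i ∈ Rs I, (FT E V j i I a + FT E V j i I b)
      ≤ 2 / E.cu * c * (3 * I * (2 * (2 : ℝ) ^ (-(1 / 2 + 1 / 1000) * (I : ℝ)))) :=
        mul_le_mul_of_nonneg_left hsumFT (by positivity)
    _ = 12 / E.cu * I * (c * (2 : ℝ) ^ (-(1 / 2 + 1 / 1000) * (I : ℝ))) := by ring
    _ ≤ (2 : ℝ) ^ (1 / 4000 * (I : ℝ)) * (c * (2 : ℝ) ^ (-(1 / 2 + 1 / 1000) * (I : ℝ))) :=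
        mul_le_mul_of_nonneg_right hexp (by positivity)
    _ = (2 : ℝ) ^ (1 / 4000 * (I : ℝ) + ((I : ℝ) / 10 ^ 14 + -(1 / 2 + 1 / 1000) * (I : ℝ))) := by
        rw [hc, ← Real.rpow_add (by norm_num), ← Real.rpow_add (by norm_num)]
    _ ≤ _ := by
        apply Real.rpow_le_rpow_of_exponent_le one_le_two
        nlinarith

end Pool.Agent.Q298.KZ
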