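import Pool.Agent.Q298.KZ.LM

/-! Job KZ-UP. -/

set_option autoImplicit false

namespace Pool.Agent.Q298.KZ

open Finset Filter Topology MeasureTheory
open scoped Classical
open Pool.Agent.W76.MO (hh nc cell lp Rough hh_pos nc_mul floor_le_i)
open Q236.CM (LP LP_mul LP_one LP_prime LP_nonneg LP_le LP_div LP_pow)
open Pool.Agent.Q18.KZ

namespace UP

variable {E : KEnv} {V : ℕ → Bool}

/-- rearrangement by the cofactor -/
lemma swap (N a b : ℕ) (hb : b ≤ N) (x : ℝ) (f φ : ℕ → ℝ) :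
    ∑ n ∈ Ioc a b, ∑ q ∈ n.primeFactors.filter (fun q : ℕ => x < q), f q * φ (n / q) =
      ∑ m ∈ Icc 1 N, ∑ q ∈ (range (N + 1)).filter (fun q : ℕ => q.Prime ∧ x < q ∧ m * q ∈ Ioc a b),
        f q * φ m := by
  rw [Finset.sum_sigma', Finset.sum_sigma']
  refine Finset.sum_nbij' (fun x => ⟨x.1 / x.2, x.2⟩) (fun y => ⟨y.1 * y.2, y.2⟩) ?_ ?_ ?_ ?_ ?_
  · rintro ⟨n, q⟩ h
    rw [mem_sigma, mem_Ioc, mem_filter, Nat.mem_primeFactors] at h
    obtain ⟨⟨h1, h2⟩, ⟨hq, hqn, hn0⟩, h3⟩ := h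
    simp only at h1 h2 hq hqn hn0 h3
    have h4 : n / q * q = n := Nat.div_mul_cancel hqn
    have h5 : 0 < n / q := Nat.div_pos (Nat.le_of_dvd (by omega) hqn) hq.pos
    have h6 : q ≤ n := Nat.le_of_dvd (by omega) hqn
    have h7 : n / q ≤ n := Nat.div_le_self _ _
    rw [mem_sigma, mem_Icc]
    refine ⟨⟨h5, by simp only; omega⟩, ?_⟩
    rw [mem_filter, mem_range]
    simp only
    rw [h4, mem_Ioc]
    exact ⟨by omega, hq, h3, h1, h2⟩
  · rintro ⟨m, q⟩ h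
    rw [mem_sigma, mem_Icc] at h
    obtain ⟨⟨h1, h2⟩, h3⟩ := h
    rw [mem_filter, mem_range] at h3
    simp only at h1 h2 h3
    obtain ⟨h4, hq, h5, h6⟩ := h3
    rw [mem_sigma]
    refine ⟨h6, ?_⟩
    simp only
    rw [mem_filter, Nat.mem_primeFactors]
    exact ⟨⟨hq, dvd_mul_left q m, Nat.mul_ne_zero (by omega) hq.ne_zero⟩, h5⟩
  · rintro ⟨n, q⟩ h
    rw [mem_sigma, mem_filter, Nat.mem_primeFactors] at h
    simp only at h
    simp only
    rw [Nat.div_mul_cancel h.2.1.2.1]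
  · rintro ⟨m, q⟩ h
    rw [mem_sigma] at h
    have h3 := h.2
    rw [mem_filter] at h3
    simp only at h3
    simp only
    rw [Nat.mul_div_cancel _ h3.2.1.pos]
  · rintro ⟨n, q⟩ h
    rfl

lemma gh_nonneg (j q : ℕ) : 0 ≤ E.gh V j q := by
  unfold KEnv.gh KEnv.H1 KEnv.H2
  refine Finset.sum_nonneg fun i _ => add_nonneg ?_ ?_
  · exact Finset.sum_nonneg fun k _ => LM.G1a_nonneg E V i k q
  · exact Finset.sum_nonneg fun k _ => LM.G2_nonneg E V i k q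

lemma AA_nonneg (j n : ℕ) : 0 ≤ E.AA V j n := by
  unfold KEnv.AA
  apply LP_nonneg
  intro p
  have := LM.aV_nonneg V p
  have := LM.gu_nonneg E j p
  have := gh_nonneg (E := E) (V := V) j p
  positivity

lemma AA_one (j : ℕ) : E.AA V j 1 = 1 := LP_one _

/-- the comparison of the weights of two scales -/
lemma wratio {i s t : ℕ} {m : ℝ} (hsi : s ≤ i) (his : i ≤ 2 * s) (hs : 1 ≤ s) (ht : i - s ≤ t + 1)
    (hm : (2 : ℝ) ^ t ≤ m) :
    ww E.δ s / hh E.δ s * (hh E.δ i / m) ≤ 2 ^ 42 * (ww E.δ i * m ^ (-(E.δ / 2))) := by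
  have hδ := E.hδ
  have hδ' : E.δ ≤ 1 / 4 := E.hδ'.trans (by norm_num)
  have hm0 : 0 < m := lt_of_lt_of_le (by positivity) hm
  have hs0 : (0 : ℝ) < s := by exact_mod_cast hs
  have hi0 : (0 : ℝ) < i := by exact_mod_cast (by omega : 0 < i)
  have hsi' : (s : ℝ) ≤ i := by exact_mod_cast hsi
  have his' : (i : ℝ) ≤ 2 * s := by exact_mod_cast his
  have h1 := hh_le E i
  have h2 := hh_ge E s
  have hhs : (0 : ℝ) < hh E.δ s := by exact_mod_cast hh_pos E.δ s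
  have hr : (i : ℝ) - s ≤ t + 1 := by
    have : i ≤ s + (t + 1) := by omega
    have : (i : ℝ) ≤ s + (t + 1) := by exact_mod_cast this
    linarith
  -- the ratio of the lengths
  have e1 : (hh E.δ i : ℝ) / hh E.δ s ≤ 2 * (2 : ℝ) ^ ((1 / 2 - E.δ) * ((i : ℝ) - s)) := by
    rw [div_le_iff₀ hhs]
    calc (hh E.δ i : ℝ) ≤ (2 : ℝ) ^ ((1 / 2 - E.δ) * (i : ℝ)) := h1
      _ = 2 * (2 : ℝ) ^ ((1 / 2 - E.δ) * ((i : ℝ) - s)) * ((2 : ℝ) ^ ((1 / 2 - E.δ) * (s : ℝ)) / 2) := by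
          have : (1 / 2 - E.δ) * (i : ℝ) = (1 / 2 - E.δ) * ((i : ℝ) - s) + (1 / 2 - E.δ) * (s : ℝ) := by ring
          rw [this, Real.rpow_add (by norm_num)]
          ring
      _ ≤ _ := mul_le_mul_of_nonneg_left h2 (by positivity)
  -- the ratio of the weights
  have e2 : ww E.δ s ≤ 2 ^ 40 * (2 : ℝ) ^ ((1 / 2 + E.δ / 2) * ((i : ℝ) - s)) * ww E.δ i := by
    unfold ww
    have h3 : (2 : ℝ) ^ (-(1 / 2 + E.δ / 2) * (s : ℝ)) =
        (2 : ℝ) ^ ((1 / 2 + E.δ / 2) * ((i : ℝ) - s)) * (2 : ℝ) ^ (-(1 / 2 + E.δ / 2) * (i : ℝ)) := by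
      rw [← Real.rpow_add (by norm_num)]
      congr 1
      ring
    rw [h3]
    have h4 : (i : ℝ) ^ 40 ≤ 2 ^ 40 * (s : ℝ) ^ 40 := by
      rw [← mul_pow]
      exact pow_le_pow_left₀ hi0.le his' 40
    have h5 : 1 / (s : ℝ) ^ 40 ≤ 2 ^ 40 / (i : ℝ) ^ 40 := by
      rw [div_le_div_iff₀ (by positivity) (by positivity)]
      linarith
    set X := (2 : ℝ) ^ ((1 / 2 + E.δ / 2) * ((i : ℝ) - s)) with hX
    set Y := (2 : ℝ) ^ (-(1 / 2 + E.δ / 2) * (i : ℝ)) with hY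
    have hX0 : 0 < X := by positivity
    have hY0 : 0 < Y := by positivity
    calc X * Y / (s : ℝ) ^ 40 = X * Y * (1 / (s : ℝ) ^ 40) := by ring
      _ ≤ X * Y * (2 ^ 40 / (i : ℝ) ^ 40) := mul_le_mul_of_nonneg_left h5 (by positivity)
      _ = _ := by ring
  have hwi := ww_nonneg E.δ i
  have hws := ww_nonneg E.δ s
  have e3 : ww E.δ s / hh E.δ s * (hh E.δ i / m) = ww E.δ s * ((hh E.δ i : ℝ) / hh E.δ s) * m⁻¹ := by
    ring
  rw [e3]
  have e4 : ww E.δ s * ((hh E.δ i : ℝ) / hh E.δ s) ≤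
      (2 ^ 40 * (2 : ℝ) ^ ((1 / 2 + E.δ / 2) * ((i : ℝ) - s)) * ww E.δ i) *
        (2 * (2 : ℝ) ^ ((1 / 2 - E.δ) * ((i : ℝ) - s))) :=
    mul_le_mul e2 e1 (by positivity) (by positivity)
  have e5 : (2 ^ 40 * (2 : ℝ) ^ ((1 / 2 + E.δ / 2) * ((i : ℝ) - s)) * ww E.δ i) *
        (2 * (2 : ℝ) ^ ((1 / 2 - E.δ) * ((i : ℝ) - s))) =
      2 ^ 41 * ww E.δ i * (2 : ℝ) ^ ((1 - E.δ / 2) * ((i : ℝ) - s)) := by
    have : (1 - E.δ / 2) * ((i : ℝ) - s) = (1 / 2 + E.δ / 2) * ((i : ℝ) - s) +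
        (1 / 2 - E.δ) * ((i : ℝ) - s) := by ring
    rw [this, Real.rpow_add (by norm_num)]
    ring
  have e6 : (2 : ℝ) ^ ((1 - E.δ / 2) * ((i : ℝ) - s)) ≤ 2 * m ^ (1 - E.δ / 2) := by
    calc (2 : ℝ) ^ ((1 - E.δ / 2) * ((i : ℝ) - s)) ≤ (2 : ℝ) ^ ((1 - E.δ / 2) * (t : ℝ) + 1) := by
          apply Real.rpow_le_rpow_of_exponent_le one_le_two
          have : (0 : ℝ) ≤ 1 - E.δ / 2 := by linarith
          nlinarith
      _ = 2 * ((2 : ℝ) ^ t) ^ (1 - E.δ / 2) := by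
          rw [Real.rpow_add (by norm_num), Real.rpow_one, ← Real.rpow_natCast, ← Real.rpow_mul (by norm_num)]
          ring_nf
      _ ≤ 2 * m ^ (1 - E.δ / 2) := by
          apply mul_le_mul_of_nonneg_left _ (by norm_num)
          apply Real.rpow_le_rpow (by positivity) hm
          linarith
  calc ww E.δ s * ((hh E.δ i : ℝ) / hh E.δ s) * m⁻¹
      ≤ (2 ^ 41 * ww E.δ i * (2 : ℝ) ^ ((1 - E.δ / 2) * ((i : ℝ) - s))) * m⁻¹ := by
        apply mul_le_mul_of_nonneg_right _ (by positivity)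
        rw [← e5]
        exact e4
    _ ≤ (2 ^ 41 * ww E.δ i * (2 * m ^ (1 - E.δ / 2))) * m⁻¹ := by
        apply mul_le_mul_of_nonneg_right _ (by positivity)
        exact mul_le_mul_of_nonneg_left e6 (by positivity)
    _ = 2 ^ 42 * (ww E.δ i * m ^ (-(E.δ / 2))) := by
        have : m ^ (-(E.δ / 2)) = m ^ (1 - E.δ / 2) * m⁻¹ := by
          rw [← Real.rpow_neg_one m, ← Real.rpow_add hm0]
          congr 1
          ring
        rw [this]
        ring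

/-- location of a prime of the cell divided by `m` -/
lemma scale_of {i m p : ℕ} (hm : 1 ≤ m) (hti : Nat.log 2 m + 1 ≤ i) (hp : 2 ≤ p) (h1 : 2 ^ i < m * p)
    (h2 : m * p ≤ 2 ^ (i + 1)) :
    i - Nat.log 2 m - 1 ≤ KEnv.sc p ∧ KEnv.sc p ≤ i - Nat.log 2 m ∧
      2 ^ (i - Nat.log 2 m - 1) < p ∧ 2 ^ KEnv.sc p < p ∧ p ≤ 2 ^ (KEnv.sc p + 1) := by
  set t := Nat.log 2 m with ht
  have h3 : 2 ^ t ≤ m := Nat.pow_log_le_self 2 (by omega)
  have h4 : m < 2 ^ (t + 1) := Nat.lt_pow_succ_log_self one_lt_two m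
  have hs1 : 2 ^ KEnv.sc p ≤ p - 1 := by
    unfold KEnv.sc
    exact Nat.pow_log_le_self 2 (by omega)
  have hs2 : p - 1 < 2 ^ (KEnv.sc p + 1) := by
    unfold KEnv.sc
    exact Nat.lt_pow_succ_log_self one_lt_two _
  have h5 : 2 ^ (i - t - 1) < p := by
    by_contra hcon
    push Not at hcon
    have : m * p ≤ 2 ^ (t + 1) * 2 ^ (i - t - 1) := Nat.mul_le_mul h4.le hcon
    rw [← pow_add] at this
    have e : t + 1 + (i - t - 1) = i := by omega
    rw [e] at this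
    omega
  have h6 : p ≤ 2 ^ (i - t + 1) := by
    by_contra hcon
    push Not at hcon
    have : 2 ^ t * 2 ^ (i - t + 1) < m * p := by
      calc 2 ^ t * 2 ^ (i - t + 1) < 2 ^ t * p := Nat.mul_lt_mul_of_pos_left hcon (by positivity)
        _ ≤ m * p := Nat.mul_le_mul_right p h3
    rw [← pow_add] at this
    have e : t + (i - t + 1) = i + 1 := by omega
    rw [e] at this
    omega
  refine ⟨?_, ?_, h5, by omega, by omega⟩
  · have : 2 ^ (i - t - 1) < 2 ^ (KEnv.sc p + 1) := by omega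
    have := (Nat.pow_lt_pow_iff_right one_lt_two).mp this
    omega
  · have : 2 ^ KEnv.sc p < 2 ^ (i - t + 1) := by omega
    have := (Nat.pow_lt_pow_iff_right one_lt_two).mp this
    omega

/-- upper bound for the values at the control primes -/
lemma gu_le {j p : ℕ} (hp : 2 ≤ p) (hs : E.i₁ ≤ KEnv.sc p) :
    E.gu j p ≤ ww E.δ (KEnv.sc p) * (KEnv.sc p / (E.cU * hh E.δ (KEnv.sc p))) := by
  have hcU := E.hcU
  have hs0 : (0 : ℝ) < KEnv.sc p := by
    have := E.hi₁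
    exact_mod_cast (by omega : 0 < KEnv.sc p)
  have hh0 : (0 : ℝ) < hh E.δ (KEnv.sc p) := by exact_mod_cast hh_pos E.δ _
  have hw := ww_nonneg E.δ (KEnv.sc p)
  unfold KEnv.gu
  split_ifs with h
  · have hk : E.kx p < nc E.δ (KEnv.sc p) := by
      unfold KEnv.kx
      rw [Nat.div_lt_iff_lt_mul (hh_pos E.δ _), nc_mul E.δ E.hδ]
      have hs2 : p - 1 < 2 ^ (KEnv.sc p + 1) := by
        unfold KEnv.sc
        exact Nat.lt_pow_succ_log_self one_lt_two _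
      rw [pow_succ] at hs2
      omega
    have h1 := E.good _ hs _ hk h.2.2
    have h2 : 0 < E.cU * hh E.δ (KEnv.sc p) / KEnv.sc p := by positivity
    calc ww E.δ (KEnv.sc p) / (((cell E.δ (KEnv.sc p) (E.kx p)).filter Nat.Prime).card : ℝ)
        ≤ ww E.δ (KEnv.sc p) / (E.cU * hh E.δ (KEnv.sc p) / KEnv.sc p) :=
          div_le_div_of_nonneg_left hw h2 h1
      _ = _ := by
          field_simp
  · positivity

/-- the cofactor `m ≥ 2` -/
lemma Sm {j i k m : ℕ} (hi1 : 2 * E.i₁ ≤ i) (hm : 2 ≤ m) (hk : k < nc E.δ i) :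
    ∑ q ∈ (range (2 ^ (i + 1) + 1)).filter (fun q : ℕ => q.Prime ∧ (2 : ℝ) ^ (3 / 5 * (i : ℝ)) < q ∧
        m * q ∈ Ioc (2 ^ i + k * hh E.δ i) (2 ^ i + (k + 1) * hh E.δ i)), E.gu j q ≤
      (2 ^ 44 * E.CB / E.cU) * (ww E.δ i * (m : ℝ) ^ (-(E.δ / 2))) := by
  have hcU := E.hcU
  have hCB : 0 < E.CB := lt_of_lt_of_le one_pos E.hCB
  have hδ := E.hδ
  have hδ' : E.δ ≤ 1 / 1000 := E.hδ'.trans (by norm_num)
  have hi₁ := E.hi₁
  have hi2000 : (2000 : ℝ) ≤ i := by exact_mod_cast (by omega : 2000 ≤ i)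
  have hm0 : (0 : ℝ) < m := by exact_mod_cast (by omega : 0 < m)
  have hwi := ww_nonneg E.δ i
  have hh0 : (0 : ℝ) < hh E.δ i := by exact_mod_cast hh_pos E.δ i
  have hend := cell_end E hk
  set A := 2 ^ i + k * hh E.δ i with hA
  set Q := (range (2 ^ (i + 1) + 1)).filter (fun q : ℕ => q.Prime ∧ (2 : ℝ) ^ (3 / 5 * (i : ℝ)) < q ∧
        m * q ∈ Ioc A (2 ^ i + (k + 1) * hh E.δ i)) with hQ
  have hAh : 2 ^ i + (k + 1) * hh E.δ i = A + hh E.δ i := by rw [hA]; ring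
  rcases Q.eq_empty_or_nonempty with hQe | ⟨q₀, hq₀⟩
  · rw [hQe, Finset.sum_empty]
    positivity
  -- the size of `m`
  set t := Nat.log 2 m with ht
  have h2t : 2 ^ t ≤ m := Nat.pow_log_le_self 2 (by omega)
  have hmt : m < 2 ^ (t + 1) := Nat.lt_pow_succ_log_self one_lt_two m
  have hmlt : (m : ℝ) < (2 : ℝ) ^ (2 / 5 * (i : ℝ) + 1) := by
    rw [hQ, mem_filter, mem_Ioc] at hq₀
    have h1 : (m : ℝ) * q₀ ≤ 2 ^ (i + 1) := by exact_mod_cast hq₀.2.2.2.2.trans hend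
    have h2 : (m : ℝ) * (2 : ℝ) ^ (3 / 5 * (i : ℝ)) < 2 ^ (i + 1) :=
      (mul_lt_mul_of_pos_left hq₀.2.2.1 hm0).trans_le h1
    have h3 : (2 : ℝ) ^ (i + 1) = (2 : ℝ) ^ (2 / 5 * (i : ℝ) + 1) * (2 : ℝ) ^ (3 / 5 * (i : ℝ)) := by
      rw [← Real.rpow_add (by norm_num), ← Real.rpow_natCast]
      congr 1
      push_cast
      ring
    rw [h3] at h2
    exact lt_of_mul_lt_mul_right h2 (by positivity)
  have htr : (t : ℝ) < 2 / 5 * (i : ℝ) + 1 := by
    have h1 : (2 : ℝ) ^ ((t : ℕ) : ℝ) < (2 : ℝ) ^ (2 / 5 * (i : ℝ) + 1) := by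
      rw [Real.rpow_natCast]
      have : ((2 : ℝ) ^ t) ≤ m := by exact_mod_cast h2t
      linarith
    rwa [Real.rpow_lt_rpow_left_iff one_lt_two] at h1
  have hti : t + 1 ≤ i := by
    have : (t : ℝ) + 1 ≤ i := by linarith
    exact_mod_cast this
  set s₀ := i - t - 1 with hs₀
  have hs₀r : (s₀ : ℝ) = i - t - 1 := by
    have : s₀ + t + 1 = i := by omega
    have h : (s₀ : ℝ) + t + 1 = i := by exact_mod_cast this
    linarith
  have his₀ : i ≤ 2 * s₀ := by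
    have : (i : ℝ) ≤ 2 * s₀ := by rw [hs₀r]; linarith
    exact_mod_cast this
  have hi₁s : E.i₁ ≤ s₀ := by omega
  have hs₀1 : 1 ≤ s₀ := by omega
  have hs₀pos : (0 : ℝ) < s₀ := by exact_mod_cast hs₀1
  have ht1 : 1 ≤ t := by
    rw [ht]
    exact Nat.log_pos one_lt_two hm
  -- the length
  have hlen : (2 : ℝ) ^ ((1 / 2 - E.δ) * (i : ℝ) - t - 2) ≤ (hh E.δ i : ℝ) / m := by
    rw [le_div_iff₀ hm0]
    have h1 : (m : ℝ) ≤ (2 : ℝ) ^ ((t : ℝ) + 1) := by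
      have : (m : ℝ) ≤ 2 ^ (t + 1) := by exact_mod_cast hmt.le
      rw [← Real.rpow_natCast] at this
      push_cast at this
      exact this
    calc (2 : ℝ) ^ ((1 / 2 - E.δ) * (i : ℝ) - t - 2) * m
        ≤ (2 : ℝ) ^ ((1 / 2 - E.δ) * (i : ℝ) - t - 2) * (2 : ℝ) ^ ((t : ℝ) + 1) :=
          mul_le_mul_of_nonneg_left h1 (by positivity)
      _ = (2 : ℝ) ^ ((1 / 2 - E.δ) * (i : ℝ)) / 2 := by
          rw [← Real.rpow_add (by norm_num)]
          have : (1 / 2 - E.δ) * (i : ℝ) - t - 2 + (t + 1) = (1 / 2 - E.δ) * (i : ℝ) - 1 := by ring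
          rw [this, Real.rpow_sub (by norm_num), Real.rpow_one]
      _ ≤ _ := hh_ge E i
  have hlen1 : (2 : ℝ) ^ (0.1 * (s₀ : ℝ)) ≤ (hh E.δ i : ℝ) / m := by
    refine le_trans ?_ hlen
    apply Real.rpow_le_rpow_of_exponent_le one_le_two
    rw [hs₀r]
    nlinarith
  have hhm : (1 : ℝ) ≤ (hh E.δ i : ℝ) / m := by
    refine le_trans ?_ hlen1
    exact Real.one_le_rpow one_le_two (by positivity)
  set L := hh E.δ i / m + 1 with hL
  have hLlow : (hh E.δ i : ℝ) / m ≤ L := by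
    rw [hL]
    push_cast
    have := Nat.lt_floor_add_one ((hh E.δ i : ℝ) / m)
    rw [Nat.floor_div_eq_div] at this
    linarith
  have hLup : (L : ℝ) ≤ 2 * ((hh E.δ i : ℝ) / m) := by
    rw [hL]
    push_cast
    have : ((hh E.δ i / m : ℕ) : ℝ) ≤ (hh E.δ i : ℝ) / m := Nat.cast_div_le
    linarith
  -- the number of primes
  have hcard : (Q.card : ℝ) ≤ E.CB * L / s₀ := by
    refine le_trans ?_ (E.btr s₀ hi₁s (A / m) L (hlen1.trans hLlow))
    have hsub : Q ⊆ (Ioc (A / m) (A / m + L)).filter (fun n => Rough ((2 : ℝ) ^ (0.24 * (s₀ : ℝ))) n) := by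
      intro q hq
      rw [hQ, mem_filter, mem_Ioc] at hq
      obtain ⟨_, hqp, _, h1, h2⟩ := hq
      have hloc := scale_of (by omega : 1 ≤ m) hti hqp.two_le (by omega) (h2.trans hend)
      rw [mem_filter, mem_Ioc]
      refine ⟨⟨?_, ?_⟩, ?_⟩
      · rw [Nat.div_lt_iff_lt_mul (by omega)]
        rw [mul_comm]
        exact h1
      · have h3 : q ≤ (A + hh E.δ i) / m := by
          rw [Nat.le_div_iff_mul_le (by omega), mul_comm, ← hAh]
          exact h2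
        refine h3.trans ?_
        rw [Nat.add_div (by omega), hL]
        split_ifs <;> omega
      · intro p hp hpq
        have h4 : p = q := (Nat.prime_dvd_prime_iff_eq hp hqp).mp hpq
        rw [h4]
        have h5 : (2 : ℝ) ^ s₀ ≤ q := by exact_mod_cast hloc.2.2.1.le
        refine le_trans ?_ h5
        rw [← Real.rpow_natCast]
        apply Real.rpow_le_rpow_of_exponent_le one_le_two
        nlinarith
    exact_mod_cast Finset.card_le_card hsub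
  -- the values
  have hval : ∀ q ∈ Q, E.gu j q ≤
      2 * s₀ / E.cU * (2 ^ 42 * (ww E.δ i * (m : ℝ) ^ (-(E.δ / 2)))) / ((hh E.δ i : ℝ) / m) := by
    intro q hq
    rw [hQ, mem_filter, mem_Ioc] at hq
    obtain ⟨_, hqp, _, h1, h2⟩ := hq
    obtain ⟨h3, h4, h5, h6, h7⟩ := scale_of (by omega : 1 ≤ m) hti hqp.two_le (by omega) (h2.trans hend)
    have h8 := gu_le (E := E) (j := j) hqp.two_le (hi₁s.trans h3)
    have h9 := wratio (E := E) (i := i) (s := KEnv.sc q) (t := t) (m := (m : ℝ)) (by omega) (by omega)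
      (by omega) (by omega) (by exact_mod_cast h2t)
    have hhs : (0 : ℝ) < hh E.δ (KEnv.sc q) := by exact_mod_cast hh_pos E.δ _
    have hhm0 : 0 < (hh E.δ i : ℝ) / m := by positivity
    have h10 : (KEnv.sc q : ℝ) ≤ 2 * s₀ := by
      have : KEnv.sc q ≤ 2 * s₀ := by omega
      exact_mod_cast this
    have hws := ww_nonneg E.δ (KEnv.sc q)
    rw [le_div_iff₀ hhm0]
    calc E.gu j q * ((hh E.δ i : ℝ) / m)
        ≤ ww E.δ (KEnv.sc q) * (KEnv.sc q / (E.cU * hh E.δ (KEnv.sc q))) * ((hh E.δ i : ℝ) / m) :=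
          mul_le_mul_of_nonneg_right h8 hhm0.le
      _ = (KEnv.sc q : ℝ) / E.cU * (ww E.δ (KEnv.sc q) / hh E.δ (KEnv.sc q) * ((hh E.δ i : ℝ) / m)) := by
          field_simp
      _ ≤ (2 * s₀) / E.cU * (2 ^ 42 * (ww E.δ i * (m : ℝ) ^ (-(E.δ / 2)))) := by
          apply mul_le_mul _ h9 (by positivity) (by positivity)
          exact div_le_div_of_nonneg_right h10 hcU.le
  refine (Finset.sum_le_sum hval).trans ?_
  rw [Finset.sum_const, nsmul_eq_mul]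
  have hhm0 : 0 < (hh E.δ i : ℝ) / m := by positivity
  calc (Q.card : ℝ) * (2 * s₀ / E.cU * (2 ^ 42 * (ww E.δ i * (m : ℝ) ^ (-(E.δ / 2)))) / ((hh E.δ i : ℝ) / m))
      ≤ (E.CB * (2 * ((hh E.δ i : ℝ) / m)) / s₀) *
          (2 * s₀ / E.cU * (2 ^ 42 * (ww E.δ i * (m : ℝ) ^ (-(E.δ / 2)))) / ((hh E.δ i : ℝ) / m)) := by
        apply mul_le_mul_of_nonneg_right _ (by positivity)
        refine hcard.trans ?_
        apply div_le_div_of_nonneg_right _ hs₀pos.le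
        exact mul_le_mul_of_nonneg_left hLup hCB.le
    _ = _ := by
        set X := (m : ℝ) ^ (-(E.δ / 2)) with hX
        set y := (hh E.δ i : ℝ) / m with hy
        field_simp

end UP

open UP in
theorem t_UP (hDE : S_DE) : S_UP := by
  intro E ε hε
  have hcU := E.hcU
  have hCB : 0 < E.CB := lt_of_lt_of_le one_pos E.hCB
  set C := 2 ^ 44 * E.CB / E.cU with hC
  have hC0 : 0 < C := by positivity
  refine KZAll.mono (KZAll.and (hDE E (ε / C) (by positivity)) (KZAll.large E (2 * E.i₁))) ?_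
  rintro η j V ⟨⟨hde, -⟩, hJ⟩
  intro i k hji hk
  have hwi := ww_nonneg E.δ i
  have hend := cell_end E hk
  rw [cell_eq, UP.swap (2 ^ (i + 1)) _ _ hend]
  have h1 : 1 ∈ Icc 1 (2 ^ (i + 1)) := mem_Icc.mpr ⟨le_rfl, Nat.one_le_two_pow⟩
  rw [← Finset.add_sum_erase _ _ h1]
  have herase : (Icc 1 (2 ^ (i + 1))).erase 1 = Icc 2 (2 ^ (i + 1)) := by
    ext x
    rw [mem_erase, mem_Icc, mem_Icc]
    omega
  rw [herase]
  apply add_le_add
  · -- `m = 1`
    simp only [AA_one, mul_one, one_mul]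
    have hval : ∀ q ∈ (range (2 ^ (i + 1) + 1)).filter (fun q : ℕ => q.Prime ∧ (2 : ℝ) ^ (3 / 5 * (i : ℝ)) < q ∧
        q ∈ Ioc (2 ^ i + k * hh E.δ i) (2 ^ i + (k + 1) * hh E.δ i)), E.gu j q ≤
        (if k ∈ E.B1 i ∪ E.B2 i then 0 else ww E.δ i / (((cell E.δ i k).filter Nat.Prime).card : ℝ)) := by
      intro q hq
      rw [mem_filter] at hq
      obtain ⟨_, hqp, _, h2⟩ := hq
      have hqc : q ∈ cell E.δ i k := h2
      unfold KEnv.gu
      rw [LM.sc_cell hk hqc, LM.kx_cell hk hqc]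
      by_cases hb : k ∈ E.B1 i ∪ E.B2 i
      · rw [if_neg (fun h => h.2.2 hb), if_pos hb]
      · rw [if_neg hb]
        split_ifs
        · exact le_rfl
        · positivity
    refine (Finset.sum_le_sum hval).trans ?_
    rw [Finset.sum_const, nsmul_eq_mul]
    by_cases hb : k ∈ E.B1 i ∪ E.B2 i
    · rw [if_pos hb, if_pos hb, mul_zero]
    · rw [if_neg hb, if_neg hb]
      have hsub : (range (2 ^ (i + 1) + 1)).filter (fun q : ℕ => q.Prime ∧ (2 : ℝ) ^ (3 / 5 * (i : ℝ)) < q ∧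
        q ∈ Ioc (2 ^ i + k * hh E.δ i) (2 ^ i + (k + 1) * hh E.δ i)) ⊆ (cell E.δ i k).filter Nat.Prime := by
        intro q hq
        rw [mem_filter] at hq ⊢
        exact ⟨hq.2.2.2, hq.2.1⟩
      have hcc : (((range (2 ^ (i + 1) + 1)).filter (fun q : ℕ => q.Prime ∧ (2 : ℝ) ^ (3 / 5 * (i : ℝ)) < q ∧
        q ∈ Ioc (2 ^ i + k * hh E.δ i) (2 ^ i + (k + 1) * hh E.δ i))).card : ℝ) ≤
          (((cell E.δ i k).filter Nat.Prime).card : ℝ) := by exact_mod_cast Finset.card_le_card hsub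
      rcases Nat.eq_zero_or_pos ((cell E.δ i k).filter Nat.Prime).card with h0 | h0
      · rw [h0] at hcc ⊢
        simp only [CharP.cast_eq_zero, div_zero, mul_zero]
        exact hwi
      · have h0r : (0 : ℝ) < (((cell E.δ i k).filter Nat.Prime).card : ℝ) := by exact_mod_cast h0
        calc _ ≤ (((cell E.δ i k).filter Nat.Prime).card : ℝ) *
              (ww E.δ i / (((cell E.δ i k).filter Nat.Prime).card : ℝ)) :=
              mul_le_mul_of_nonneg_right hcc (by positivity)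
          _ = ww E.δ i := by field_simp
  · -- `m ≥ 2`
    have h2 : ∀ m ∈ Icc 2 (2 ^ (i + 1)),
        ∑ q ∈ (range (2 ^ (i + 1) + 1)).filter (fun q : ℕ => q.Prime ∧ (2 : ℝ) ^ (3 / 5 * (i : ℝ)) < q ∧
          m * q ∈ Ioc (2 ^ i + k * hh E.δ i) (2 ^ i + (k + 1) * hh E.δ i)), E.gu j q * E.AA V j m ≤
        C * ww E.δ i * (E.AA V j m * (m : ℝ) ^ (-(E.δ / 2))) := by
      intro m hm
      rw [mem_Icc] at hm
      rw [← Finset.sum_mul]
      have h3 := Sm (E := E) (j := j) (hJ.trans hji) hm.1 hk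
      have h4 := AA_nonneg (E := E) (V := V) j m
      calc _ ≤ C * (ww E.δ i * (m : ℝ) ^ (-(E.δ / 2))) * E.AA V j m := mul_le_mul_of_nonneg_right h3 h4
        _ = _ := by ring
    refine (Finset.sum_le_sum h2).trans ?_
    rw [← Finset.mul_sum]
    calc C * ww E.δ i * ∑ m ∈ Icc 2 (2 ^ (i + 1)), E.AA V j m * (m : ℝ) ^ (-(E.δ / 2))
        ≤ C * ww E.δ i * (ε / C) := mul_le_mul_of_nonneg_left (hde _) (by positivity)
      _ = ε * ww E.δ i := by field_simp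

end Pool.Agent.Q298.KZ
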