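import Pool.Agent.Q18.KZ.S3
import Pool.Agent.W76.MO.Asm2

/-! Basics for project KZ. -/

set_option autoImplicit false

namespace Pool.Agent.Q298.KZ

open Finset Filter Topology MeasureTheory
open scoped Classical
open Pool.Agent.W76.MO (hh nc cell lp Rough hh_pos nc_mul floor_le_i)
open Q236.CM (LP LP_mul LP_one LP_prime LP_nonneg LP_le LP_div)
open Pool.Agent.Q18.KZ

/-! ### combining `KZAll` -/

lemma KZAll.and {E : KEnv} {P Q : ℝ → ℕ → (ℕ → Bool) → Prop} (hP : KZAll E P) (hQ : KZAll E Q) :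
    KZAll E (fun η j V => P η j V ∧ Q η j V) := by
  obtain ⟨η₁, J₁, h1, h2⟩ := hP
  obtain ⟨η₂, J₂, h3, h4⟩ := hQ
  refine ⟨min η₁ η₂, max J₁ J₂, lt_min h1 h3, fun η j V hη hη' hj hE => ⟨?_, ?_⟩⟩
  · exact h2 η j V hη (hη'.trans (min_le_left _ _)) ((le_max_left _ _).trans hj) hE
  · exact h4 η j V hη (hη'.trans (min_le_right _ _)) ((le_max_right _ _).trans hj) hE

lemma KZAll.mono {E : KEnv} {P Q : ℝ → ℕ → (ℕ → Bool) → Prop} (hP : KZAll E P)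
    (h : ∀ η j V, P η j V → Q η j V) : KZAll E Q := by
  obtain ⟨η₁, J₁, h1, h2⟩ := hP
  exact ⟨η₁, J₁, h1, fun η j V hη hη' hj hE => h η j V (h2 η j V hη hη' hj hE)⟩

lemma KZAll.large (E : KEnv) (J : ℕ) : KZAll E (fun _ j _ => J ≤ j) :=
  ⟨1, J, one_pos, fun _ _ _ _ _ hj _ => hj⟩

lemma KZAll.ev (E : KEnv) : KZAll E (fun η j V => Ev E (20 * E.CB) η j V) :=
  ⟨1, 0, one_pos, fun _ _ _ _ _ _ h => h⟩

lemma KZAll.eta (E : KEnv) (η₀ : ℝ) (h : 0 < η₀) : KZAll E (fun η _ _ => 0 < η ∧ η ≤ η₀) :=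
  ⟨η₀, 0, h, fun _ _ _ h1 h2 _ _ => ⟨h1, h2⟩⟩

/-! ### exponentials against powers -/

lemma ev_pow (k : ℕ) (c C : ℝ) (hc : 0 < c) : ∃ J : ℕ, ∀ i : ℕ, J ≤ i →
    C * (i : ℝ) ^ k ≤ (2 : ℝ) ^ (c * (i : ℝ)) := by
  have hr : |(2 : ℝ) ^ (-c)| < 1 := by
    rw [abs_of_pos (by positivity)]
    exact Real.rpow_lt_one_of_one_lt_of_neg one_lt_two (by linarith)
  have h := (tendsto_pow_const_mul_const_pow_of_abs_lt_one k hr).const_mul C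
  rw [mul_zero] at h
  obtain ⟨J, hJ⟩ := (h.eventually (gt_mem_nhds one_pos)).exists_forall_of_atTop
  refine ⟨J, fun i hi => ?_⟩
  have h1 := (hJ i hi).le
  have h2 : ((2 : ℝ) ^ (-c)) ^ i = ((2 : ℝ) ^ (c * (i : ℝ)))⁻¹ := by
    rw [← Real.rpow_natCast, ← Real.rpow_mul (by norm_num), ← Real.rpow_neg (by norm_num)]
    congr 1
    ring
  rw [h2] at h1
  have h3 : 0 < (2 : ℝ) ^ (c * (i : ℝ)) := by positivity
  have h4 := mul_le_mul_of_nonneg_right h1 h3.le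
  rw [one_mul] at h4
  calc C * (i : ℝ) ^ k = C * ((i : ℝ) ^ k * ((2 : ℝ) ^ (c * (i : ℝ)))⁻¹) * (2 : ℝ) ^ (c * (i : ℝ)) := by
        field_simp
    _ ≤ _ := h4

/-! ### the environment -/

variable (E : KEnv)

lemma al_pos : 0 < E.al := by unfold KEnv.al; positivity

lemma al_le : E.al ≤ 1 / 64 := by
  unfold KEnv.al
  apply one_div_le_one_div_of_le (by norm_num)
  have : (0 : ℝ) ≤ E.B0 := Nat.cast_nonneg _
  linarith

lemma ww_nonneg (δ : ℝ) (i : ℕ) : 0 ≤ ww δ i := by unfold ww; positivity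

lemma ww_pos (δ : ℝ) {i : ℕ} (hi : 1 ≤ i) : 0 < ww δ i := by
  have : (0 : ℝ) < i := by exact_mod_cast hi
  unfold ww; positivity

lemma WC_pos {i : ℕ} (hi : 1 ≤ i) (k : ℕ) : 0 < E.WC i k := by
  unfold KEnv.WC
  have := al_pos E
  have := ww_pos E.δ hi
  split_ifs <;> positivity

lemma WC_ge {i : ℕ} (k : ℕ) : E.al * ww E.δ i ≤ E.WC i k := by
  unfold KEnv.WC
  have h1 := al_pos E
  have h2 := ww_nonneg E.δ i
  have h3 := al_le E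
  split_ifs
  · exact le_rfl
  · nlinarith

lemma WC_le {i : ℕ} (k : ℕ) : E.WC i k ≤ ww E.δ i := by
  unfold KEnv.WC
  have h1 := al_pos E
  have h2 := ww_nonneg E.δ i
  have h3 := al_le E
  split_ifs
  · nlinarith
  · exact le_rfl

lemma nc_pos (i : ℕ) : 0 < nc E.δ i := by
  have h := nc_mul E.δ E.hδ i
  rcases Nat.eq_zero_or_pos (nc E.δ i) with h0 | h0
  · rw [h0, zero_mul] at h
    exact absurd h.symm (by positivity)
  · exact h0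

lemma hh_le (i : ℕ) : (hh E.δ i : ℝ) ≤ (2 : ℝ) ^ ((1 / 2 - E.δ) * (i : ℝ)) := by
  unfold hh
  push_cast
  rw [← Real.rpow_natCast]
  apply Real.rpow_le_rpow_of_exponent_le one_le_two
  apply Nat.floor_le
  have h1 := E.hδ'
  have : (0 : ℝ) ≤ i := Nat.cast_nonneg i
  have : E.δ ≤ 1 / 2 := h1.trans (by norm_num)
  apply mul_nonneg _ (Nat.cast_nonneg i)
  linarith

lemma hh_ge (i : ℕ) : (2 : ℝ) ^ ((1 / 2 - E.δ) * (i : ℝ)) / 2 ≤ (hh E.δ i : ℝ) := by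
  unfold hh
  push_cast
  rw [← Real.rpow_natCast]
  have h1 : (2 : ℝ) ^ ((1 / 2 - E.δ) * (i : ℝ)) / 2 = (2 : ℝ) ^ ((1 / 2 - E.δ) * (i : ℝ) - 1) := by
    rw [Real.rpow_sub (by norm_num), Real.rpow_one]
  rw [h1]
  apply Real.rpow_le_rpow_of_exponent_le one_le_two
  have := Nat.lt_floor_add_one ((1 / 2 - E.δ) * (i : ℝ))
  linarith

lemma nc_eq (i : ℕ) : (nc E.δ i : ℝ) * hh E.δ i = 2 ^ i := by
  exact_mod_cast nc_mul E.δ E.hδ i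

lemma nc_ge (i : ℕ) : (2 : ℝ) ^ ((1 / 2 + E.δ) * (i : ℝ)) ≤ (nc E.δ i : ℝ) := by
  have h1 := nc_eq E i
  have h2 := hh_le E i
  have h3 : 0 < (2 : ℝ) ^ ((1 / 2 - E.δ) * (i : ℝ)) := by positivity
  have h4 : (2 : ℝ) ^ ((1 / 2 + E.δ) * (i : ℝ)) * (2 : ℝ) ^ ((1 / 2 - E.δ) * (i : ℝ)) = 2 ^ i := by
    rw [← Real.rpow_add (by norm_num), ← Real.rpow_natCast]
    congr 1
    ring
  have h5 : 0 ≤ (nc E.δ i : ℝ) := Nat.cast_nonneg _
  have h6 : (2 : ℝ) ^ ((1 / 2 + E.δ) * (i : ℝ)) * (2 : ℝ) ^ ((1 / 2 - E.δ) * (i : ℝ)) ≤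
      (nc E.δ i : ℝ) * (2 : ℝ) ^ ((1 / 2 - E.δ) * (i : ℝ)) := by
    rw [h4, ← h1]
    exact mul_le_mul_of_nonneg_left h2 h5
  exact le_of_mul_le_mul_right h6 h3

lemma cell_eq (i k : ℕ) : cell E.δ i k = Ioc (2 ^ i + k * hh E.δ i) (2 ^ i + (k + 1) * hh E.δ i) := rfl

lemma cell_end {i k : ℕ} (hk : k < nc E.δ i) : 2 ^ i + (k + 1) * hh E.δ i ≤ 2 ^ (i + 1) := by
  have h1 := nc_mul E.δ E.hδ i
  have h2 : (k + 1) * hh E.δ i ≤ nc E.δ i * hh E.δ i := Nat.mul_le_mul_right _ hk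
  rw [pow_succ]
  omega

lemma mem_cell {i k n : ℕ} (hk : k < nc E.δ i) (hn : n ∈ cell E.δ i k) :
    2 ^ i < n ∧ n ≤ 2 ^ (i + 1) := by
  rw [cell_eq, mem_Ioc] at hn
  have := cell_end E hk
  omega

end Pool.Agent.Q298.KZ
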